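import Mathlib

set_option autoImplicit false

namespace Pool.Agent.Work.MP_83f734_co

variable {M ι : Type*} [AddCommGroup M] {K : ι → M →ₗ[ℤ] ℝ} {ε : ℝ}

/-- positive small vectors -/
def PosSmall (K : ι → M →ₗ[ℤ] ℝ) (ε : ℝ) (z : M) : Prop := ∀ i, 0 < K i z ∧ K i z < ε

theorem posSmall_diff
    (hs : ∀ z, z ≠ 0 → (∀ i, |K i z| < ε) → (∀ i, 0 < K i z) ∨ (∀ i, K i z < 0))
    {z w : M} (hz : PosSmall K ε z) (hw : PosSmall K ε w) (hne : z ≠ w) :
    (∀ i, K i w < K i z) ∨ (∀ i, K i z < K i w) := by
  rcases hs (z - w) (sub_ne_zero.mpr hne) (by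
    intro i
    rw [map_sub, abs_lt]
    have h1 := hz i
    have h2 := hw i
    constructor <;> linarith) with h | h
  · left
    intro i
    have := h i
    rw [map_sub] at this
    linarith
  · right
    intro i
    have := h i
    rw [map_sub] at this
    linarith

theorem posSmall_step
    (hs : ∀ z, z ≠ 0 → (∀ i, |K i z| < ε) → (∀ i, 0 < K i z) ∨ (∀ i, K i z < 0))
    {z w : M} (hz : PosSmall K ε z) (hw : PosSmall K ε w) (i : ι) (hlt : K i w < K i z) :
    ∃ (m : ℕ) (r : M), 1 ≤ m ∧ z = r + m • w ∧
      (r = 0 ∨ (PosSmall K ε r ∧ ∀ j, K j r < K j w)) := by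
  have hwi := (hw i).1
  set m : ℕ := ⌊K i z / K i w⌋₊ with hm
  have hdiv : 0 ≤ K i z / K i w := div_nonneg (hz i).1.le hwi.le
  have h1 : (m : ℝ) * K i w ≤ K i z := by
    have := Nat.floor_le hdiv
    rwa [le_div_iff₀ hwi] at this
  have h2 : K i z < (m + 1 : ℝ) * K i w := by
    have := Nat.lt_floor_add_one (K i z / K i w)
    rwa [div_lt_iff₀ hwi] at this
  have hm1 : 1 ≤ m := by
    by_contra hcon
    have : m = 0 := by omega
    rw [this] at h2
    simp at h2
    linarith
  have key : ∀ n : ℕ, n ≤ m → (z - n • w = 0 ∨ PosSmall K ε (z - n • w)) := by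
    intro n
    induction n with
    | zero => intro _; right; simpa using hz
    | succ n ih =>
      intro hn
      have hval : K i (z - n • w) = K i z - n * K i w := by
        rw [map_sub, map_nsmul, nsmul_eq_mul]
      have hge : K i w ≤ K i (z - n • w) := by
        rw [hval]
        have h3 : ((n + 1 : ℕ) : ℝ) ≤ m := by exact_mod_cast hn
        push_cast at h3
        have h4 : ((n : ℝ) + 1) * K i w ≤ m * K i w := mul_le_mul_of_nonneg_right h3 hwi.le
        linarith
      have heq : z - (n + 1) • w = (z - n • w) - w := by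
        rw [succ_nsmul]; abel
      rcases ih (by omega) with h3 | h3
      · rw [h3, map_zero] at hge; linarith
      · by_cases h4 : z - n • w = w
        · left; rw [heq, h4, sub_self]
        · right
          rcases posSmall_diff hs h3 hw h4 with h5 | h5
          · intro j
            rw [heq, map_sub]
            have h6 := h5 j
            have h7 := (h3 j).2
            have h8 := (hw j).1
            constructor <;> linarith
          · have := h5 i
            linarith
  refine ⟨m, z - m • w, hm1, by abel, ?_⟩
  rcases key m le_rfl with h3 | h3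
  · exact Or.inl h3
  · right
    refine ⟨h3, ?_⟩
    have hval : K i (z - m • w) = K i z - m * K i w := by
      rw [map_sub, map_nsmul, nsmul_eq_mul]
    have hlt2 : K i (z - m • w) < K i w := by
      rw [hval]; linarith
    have hne : z - m • w ≠ w := by
      intro h; rw [h] at hlt2; exact lt_irrefl _ hlt2
    rcases posSmall_diff hs h3 hw hne with h5 | h5
    · have := h5 i; linarith
    · exact h5

theorem euclid_bound
    (hs : ∀ z, z ≠ 0 → (∀ i, |K i z| < ε) → (∀ i, 0 < K i z) ∨ (∀ i, K i z < 0))
    (i j : ι) (n : ℕ) : ∀ z w : M, PosSmall K ε z → PosSmall K ε w →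
    |K i z * K j w - K j z * K i w| ≤ (K i z + K j z) * (K i w + K j w) / 2 ^ n := by
  induction n with
  | zero =>
    intro z w hz hw
    have h1 := (hz i).1
    have h2 := (hz j).1
    have h3 := (hw i).1
    have h4 := (hw j).1
    rw [pow_zero, div_one, abs_le]
    constructor <;> nlinarith [mul_pos h1 h3, mul_pos h1 h4, mul_pos h2 h3, mul_pos h2 h4]
  | succ n ih =>
    have main : ∀ z w : M, PosSmall K ε z → PosSmall K ε w → K i w < K i z →
        |K i z * K j w - K j z * K i w| ≤ (K i z + K j z) * (K i w + K j w) / 2 ^ (n + 1) := by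
      intro z w hz hw hlt
      obtain ⟨m, r, hm, hzr, hr⟩ := posSmall_step hs hz hw i hlt
      have hKi : K i z = K i r + m * K i w := by
        rw [hzr, map_add, map_nsmul, nsmul_eq_mul]
      have hKj : K j z = K j r + m * K j w := by
        rw [hzr, map_add, map_nsmul, nsmul_eq_mul]
      have h1 := (hz i).1
      have h2 := (hz j).1
      have h3 := (hw i).1
      have h4 := (hw j).1
      have hm' : (1 : ℝ) ≤ m := by exact_mod_cast hm
      rcases hr with hr | ⟨hr1, hr2⟩
      · rw [hr, map_zero, zero_add] at hKi hKj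
        have h5 : K i z * K j w - K j z * K i w = 0 := by rw [hKi, hKj]; ring
        rw [h5, abs_zero]
        positivity
      · have h5 : K i z * K j w - K j z * K i w = -(K i w * K j r - K j w * K i r) := by
          rw [hKi, hKj]; ring
        have h6 := ih w r hw hr1
        rw [h5, abs_neg]
        refine h6.trans ?_
        rw [pow_succ]
        have h7 : K i r + K j r ≤ (K i z + K j z) / 2 := by
          have h8 := hr2 i
          have h9 := hr2 j
          have h10 : K i w ≤ m * K i w := by nlinarith
          have h11 : K j w ≤ m * K j w := by nlinarith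
          linarith
        have h12 : (0 : ℝ) < 2 ^ n := by positivity
        rw [div_le_div_iff₀ h12 (by positivity)]
        have h13 : 0 < K i w + K j w := by linarith
        have h14 : (K i w + K j w) * (K i r + K j r) ≤
            (K i w + K j w) * ((K i z + K j z) / 2) := mul_le_mul_of_nonneg_left h7 h13.le
        nlinarith
    intro z w hz hw
    by_cases hne : z = w
    · rw [hne]
      have h3 := (hw i).1
      have h4 := (hw j).1
      have h5 : K i w * K j w - K j w * K i w = 0 := by ring
      rw [h5, abs_zero]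
      positivity
    · rcases posSmall_diff hs hz hw hne with h | h
      · exact main z w hz hw (h i)
      · have h1 := main w z hw hz (h i)
        have h2 : K i z * K j w - K j z * K i w = -(K i w * K j z - K j w * K i z) := by ring
        rw [h2, abs_neg]
        refine h1.trans (le_of_eq ?_)
        ring

theorem euclid_pos
    (hs : ∀ z, z ≠ 0 → (∀ i, |K i z| < ε) → (∀ i, 0 < K i z) ∨ (∀ i, K i z < 0))
    (i j : ι) (z w : M) (hz : PosSmall K ε z) (hw : PosSmall K ε w) :
    K i z * K j w = K j z * K i w := by
  by_contra hne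
  have hpos : 0 < |K i z * K j w - K j z * K i w| := abs_pos.mpr (sub_ne_zero.mpr hne)
  set D := |K i z * K j w - K j z * K i w| with hD
  set S := (K i z + K j z) * (K i w + K j w) with hS
  obtain ⟨n, hn⟩ := pow_unbounded_of_one_lt (S / D) (one_lt_two (α := ℝ))
  have h1 := euclid_bound hs i j n z w hz hw
  rw [← hD, ← hS] at h1
  have h2 : (0 : ℝ) < 2 ^ n := by positivity
  rw [le_div_iff₀ h2] at h1
  rw [div_lt_iff₀ hpos] at hn
  linarith

theorem euclid
    (hs : ∀ z, z ≠ 0 → (∀ i, |K i z| < ε) → (∀ i, 0 < K i z) ∨ (∀ i, K i z < 0))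
    (z w : M) (hz : ∀ i, |K i z| < ε) (hw : ∀ i, |K i w| < ε) (i j : ι) :
    K i z * K j w = K j z * K i w := by
  by_cases hz0 : z = 0
  · simp [hz0]
  by_cases hw0 : w = 0
  · simp [hw0]
  have hz' : PosSmall K ε z ∨ PosSmall K ε (-z) := by
    rcases hs z hz0 hz with h | h
    · left; intro i; exact ⟨h i, (abs_lt.mp (hz i)).2⟩
    · right; intro i; rw [map_neg]
      have h1 := h i
      have h2 := (abs_lt.mp (hz i)).1
      constructor <;> linarith
  have hw' : PosSmall K ε w ∨ PosSmall K ε (-w) := by
    rcases hs w hw0 hw with h | h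
    · left; intro i; exact ⟨h i, (abs_lt.mp (hw i)).2⟩
    · right; intro i; rw [map_neg]
      have h1 := h i
      have h2 := (abs_lt.mp (hw i)).1
      constructor <;> linarith
  rcases hz' with h1 | h1 <;> rcases hw' with h2 | h2
  · exact euclid_pos hs i j z w h1 h2
  · have := euclid_pos hs i j z (-w) h1 h2
    simp only [map_neg] at this
    linarith
  · have := euclid_pos hs i j (-z) w h1 h2
    simp only [map_neg] at this
    linarith
  · have := euclid_pos hs i j (-z) (-w) h1 h2
    simp only [map_neg] at this
    linarith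

end Pool.Agent.Work.MP_83f734_co
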