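import Mathlib

set_option autoImplicit false

namespace Pool.Agent.Work.MP_83f734_co

open Module Submodule

/-- A discrete image of `ℤ^n` in a finite-dimensional real space has rank at most the dimension. -/
theorem finrank_range_le_of_discrete {n : ℕ} {E : Type*} [NormedAddCommGroup E] [NormedSpace ℝ E]
    [FiniteDimensional ℝ E] (φ : (Fin n → ℤ) →ₗ[ℤ] E) {δ : ℝ} (hδ : 0 < δ)
    (h : ∀ z, ‖φ z‖ < δ → φ z = 0) : finrank ℤ (LinearMap.range φ) ≤ finrank ℝ E := by
  set s : Set E := Set.range (fun i : Fin n => φ (Pi.single i 1)) with hs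
  have hspan : span ℤ s = LinearMap.range φ := by
    rw [LinearMap.range_eq_map, ← (Pi.basisFun ℤ (Fin n)).span_eq, Submodule.map_span]
    congr 1
    rw [hs, ← Set.range_comp]
    congr 1
    ext i
    simp [Function.comp]
  have hdisc : DiscreteTopology (span ℤ s) := by
    apply DiscreteTopology.of_forall_le_norm hδ
    rintro ⟨x, hx⟩ hne
    by_contra hcon
    push Not at hcon
    apply hne
    rw [hspan] at hx
    obtain ⟨z, rfl⟩ := hx
    have := h z (by simpa using hcon)
    ext
    simpa using this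
  have hkey := Real.finrank_eq_int_finrank_of_discrete hdisc
  rw [Set.finrank, Set.finrank, hspan] at hkey
  rw [← hkey]
  exact Submodule.finrank_le _

/-- Existence of small nonzero vectors in an injective image of `ℤ^n` when `dim E < n`. -/
theorem exists_small {n : ℕ} {E : Type*} [NormedAddCommGroup E] [NormedSpace ℝ E]
    [FiniteDimensional ℝ E] (φ : (Fin n → ℤ) →ₗ[ℤ] E) (hinj : ∀ z, φ z = 0 → z = 0)
    (hn : finrank ℝ E < n) {ε : ℝ} (hε : 0 < ε) : ∃ z, z ≠ 0 ∧ ‖φ z‖ < ε := by
  by_contra hcon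
  push Not at hcon
  have h1 := finrank_range_le_of_discrete φ hε (by
    intro z hz
    by_contra hne
    have hz0 : z ≠ 0 := by rintro rfl; exact hne (map_zero φ)
    exact absurd hz (not_lt.mpr (hcon z hz0)))
  have hker : LinearMap.ker φ = ⊥ := by
    rw [LinearMap.ker_eq_bot']
    exact hinj
  have h2 : finrank ℤ (LinearMap.range φ) = n := by
    rw [LinearMap.finrank_range_of_inj (LinearMap.ker_eq_bot.mp hker)]
    simp
  omega

/-- Two real numbers: a small nontrivial integer combination. -/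
theorem exists_small_comb (α β : ℝ) (hinj : ∀ m n : ℤ, m * α + n * β = 0 → m = 0 ∧ n = 0)
    {ε : ℝ} (hε : 0 < ε) : ∃ m n : ℤ, ¬ (m = 0 ∧ n = 0) ∧ |m * α + n * β| < ε := by
  let φ : (Fin 2 → ℤ) →ₗ[ℤ] ℝ :=
    { toFun := fun z => z 0 * α + z 1 * β
      map_add' := by intro x y; simp; ring
      map_smul' := by intro c x; simp; ring }
  have hφ : ∀ z, φ z = z 0 * α + z 1 * β := fun z => rfl
  obtain ⟨z, hz, hz2⟩ := exists_small φ (by
    intro z hz
    rw [hφ] at hz
    obtain ⟨h0, h1⟩ := hinj _ _ hz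
    ext i
    fin_cases i
    · exact h0
    · exact h1) (by simp) hε
  refine ⟨z 0, z 1, ?_, ?_⟩
  · rintro ⟨h0, h1⟩
    apply hz
    ext i
    fin_cases i
    · exact h0
    · exact h1
  · rw [← hφ]
    simpa using hz2

end Pool.Agent.Work.MP_83f734_co
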