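import Mathlib
import Pool.Agent.Work.MP_83f734_co.Small

set_option autoImplicit false

namespace Pool.Agent.Work.MP_83f734_co

open Module

/-- the six points of `Δ_5`. -/
def pt : Fin 6 → (Fin 5 → ℤ) := Fin.cons 0 (fun i => Pi.single i 1)

/-- barycentric coordinates (linear parts). -/
def lam : Fin 6 → (Fin 5 → ℤ) → ℤ := Fin.cons (fun z => -∑ j, z j) (fun j z => z j)

theorem lam_pt : ∀ k l r : Fin 6, lam k (pt l - pt r) =
    (if k = l then 1 else 0) - (if k = r then 1 else 0) := by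
  decide

theorem lam_add (k : Fin 6) (x y : Fin 5 → ℤ) : lam k (x + y) = lam k x + lam k y := by
  refine Fin.cases ?_ (fun j => ?_) k
  · simp [lam, Finset.sum_add_distrib]; ring
  · simp [lam]

theorem lam_smul (k : Fin 6) (c : ℤ) (x : Fin 5 → ℤ) : lam k (c • x) = c * lam k x := by
  refine Fin.cases ?_ (fun j => ?_) k
  · simp [lam, Finset.mul_sum]
  · simp [lam]

theorem pt_zero : pt 0 = 0 := rfl

theorem pt_val : ∀ (k : Fin 6) (j : Fin 5), pt k j = 0 ∨ pt k j = 1 := by decide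

theorem pt_inj : ∀ k l : Fin 6, pt k = pt l → k = l := by decide

/-- linear functional on `ℤ^5` attached to a real row. -/
noncomputable def Lf (a : Fin 5 → ℝ) : (Fin 5 → ℤ) →ₗ[ℤ] ℝ where
  toFun z := ∑ j, a j * (z j : ℝ)
  map_add' x y := by simp [mul_add, Finset.sum_add_distrib]
  map_smul' c x := by
    simp only [Pi.smul_apply, smul_eq_mul, Int.cast_mul, RingHom.id_apply, zsmul_eq_mul,
      Finset.mul_sum]
    refine Finset.sum_congr rfl fun j _ => ?_
    ring

theorem Lf_apply (a : Fin 5 → ℝ) (z : Fin 5 → ℤ) : Lf a z = ∑ j, a j * (z j : ℝ) := rfl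

/-- The hypothesis we refute: four inequalities cut out exactly the six points. -/
def Bad (A : Fin 4 → Fin 5 → ℝ) (b : Fin 4 → ℝ) : Prop :=
  ∀ x : Fin 5 → ℤ, (∀ i, Lf (A i) x ≤ b i) ↔ ∃ k, x = pt k

variable {A : Fin 4 → Fin 5 → ℝ} {b : Fin 4 → ℝ}

theorem Bad.pt_le (h : Bad A b) (i : Fin 4) (k : Fin 6) : Lf (A i) (pt k) ≤ b i :=
  (h (pt k)).mpr ⟨k, rfl⟩ i

theorem Bad.b_nonneg (h : Bad A b) (i : Fin 4) : 0 ≤ b i := by
  have := h.pt_le i 0
  rwa [pt_zero, map_zero] at this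

/-- no integer recession direction -/
theorem Bad.no_rec (h : Bad A b) (z : Fin 5 → ℤ) (hz : ∀ i, Lf (A i) z ≤ 0) : z = 0 := by
  obtain ⟨k, hk⟩ := (h z).mp (fun i => (hz i).trans (h.b_nonneg i))
  obtain ⟨l, hl⟩ := (h (z + z)).mp (fun i => by
    rw [map_add]
    have h1 := hz i
    have h2 := h.b_nonneg i
    linarith)
  ext j
  have h1 := congrFun hl j
  rw [Pi.add_apply] at h1
  have h2 := pt_val l j
  have h3 := congrFun hk j
  have h4 := pt_val k j
  rw [Pi.zero_apply]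
  omega

/-- rows which are tight at all six points vanish -/
theorem Bad.row_zero (i : Fin 4) (hi : ∀ k, Lf (A i) (pt k) = b i) :
    ∀ z, Lf (A i) z = 0 := by
  have hb : b i = 0 := by
    have := hi 0
    rw [pt_zero, map_zero] at this
    exact this.symm
  have hA : ∀ j, A i j = 0 := by
    intro j
    have := hi j.succ
    rw [hb, Lf_apply] at this
    have hp : pt j.succ = Pi.single j 1 := rfl
    rw [hp] at this
    simpa [Pi.single_apply] using this
  intro z
  rw [Lf_apply]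
  simp [hA]

/-- The vector of all four values. -/
noncomputable def Lv (A : Fin 4 → Fin 5 → ℝ) : (Fin 5 → ℤ) →ₗ[ℤ] (Fin 4 → ℝ) :=
  LinearMap.pi (fun i => Lf (A i))

theorem Lv_apply (A : Fin 4 → Fin 5 → ℝ) (z : Fin 5 → ℤ) (i : Fin 4) : Lv A z i = Lf (A i) z := rfl

theorem Bad.inj (h : Bad A b) (z : Fin 5 → ℤ) (hz : Lv A z = 0) : z = 0 := by
  apply h.no_rec
  intro i
  rw [← Lv_apply, hz]
  exact le_rfl

theorem Bad.exists_small (h : Bad A b) {ε : ℝ} (hε : 0 < ε) :
    ∃ z, z ≠ 0 ∧ ∀ i, |Lf (A i) z| < ε := by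
  obtain ⟨z, hz, hz2⟩ := Pool.Agent.Work.MP_83f734_co.exists_small (Lv A) h.inj (by simp) hε
  refine ⟨z, hz, fun i => ?_⟩
  have := norm_le_pi_norm (Lv A z) i
  rw [Lv_apply, Real.norm_eq_abs] at this
  exact lt_of_le_of_lt this hz2

/-- Step 3: a threshold below which small vectors have the sign property. -/
theorem Bad.threshold (h : Bad A b) : ∃ ε : ℝ, 0 < ε ∧ ∀ z, z ≠ 0 → (∀ i, |Lf (A i) z| < ε) →
    ∀ k, ∃ i, Lf (A i) (pt k) = b i ∧ 0 < Lf (A i) z := by
  -- ε smaller than all positive slacks and all |L(pt k - pt l)| sup norms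
  obtain ⟨ε1, hε1, h1⟩ : ∃ ε : ℝ, 0 < ε ∧ ∀ i k, Lf (A i) (pt k) < b i →
      ε ≤ b i - Lf (A i) (pt k) := by
    classical
    let S : Finset ℝ := (Finset.univ : Finset (Fin 4 × Fin 6)).image
      (fun p => if Lf (A p.1) (pt p.2) < b p.1 then b p.1 - Lf (A p.1) (pt p.2) else 1)
    have hS : S.Nonempty := ⟨_, Finset.mem_image_of_mem _ (Finset.mem_univ (0, 0))⟩
    refine ⟨S.min' hS, ?_, ?_⟩
    · rw [Finset.lt_min'_iff]
      intro y hy
      obtain ⟨p, _, rfl⟩ := Finset.mem_image.mp hy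
      split_ifs with hp
      · linarith
      · exact one_pos
    · intro i k hik
      apply Finset.min'_le
      exact Finset.mem_image.mpr ⟨(i, k), Finset.mem_univ _, by simp [hik]⟩
  obtain ⟨ε2, hε2, h2⟩ : ∃ ε : ℝ, 0 < ε ∧ ∀ k l, k ≠ l → ε ≤ ‖Lv A (pt k - pt l)‖ := by
    classical
    let S : Finset ℝ := (Finset.univ : Finset (Fin 6 × Fin 6)).image
      (fun p => if p.1 ≠ p.2 then ‖Lv A (pt p.1 - pt p.2)‖ else 1)
    have hS : S.Nonempty := ⟨_, Finset.mem_image_of_mem _ (Finset.mem_univ (0, 0))⟩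
    refine ⟨S.min' hS, ?_, ?_⟩
    · rw [Finset.lt_min'_iff]
      intro y hy
      obtain ⟨p, _, rfl⟩ := Finset.mem_image.mp hy
      split_ifs with hp
      · rw [norm_pos_iff]
        intro h0
        have := h.inj _ h0
        exact hp (pt_inj _ _ (sub_eq_zero.mp this))
      · exact one_pos
    · intro k l hkl
      apply Finset.min'_le
      exact Finset.mem_image.mpr ⟨(k, l), Finset.mem_univ _, by simp [hkl]⟩
  refine ⟨min ε1 ε2, lt_min hε1 hε2, ?_⟩
  intro z hz hsmall k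
  -- pt k + z is not a solution
  have hnot : ¬ ∀ i, Lf (A i) (pt k + z) ≤ b i := by
    intro hcon
    obtain ⟨l, hl⟩ := (h _).mp hcon
    have hzl : z = pt l - pt k := by rw [← hl]; abel
    have hne : l ≠ k := by
      rintro rfl
      apply hz
      rw [hzl]; simp
    have h3 := h2 l k hne
    rw [← hzl] at h3
    have h4 : ‖Lv A z‖ < ε2 := by
      rw [pi_norm_lt_iff hε2]
      intro i
      rw [Lv_apply, Real.norm_eq_abs]
      exact (hsmall i).trans_le (min_le_right _ _)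
    linarith
  push Not at hnot
  obtain ⟨i, hi⟩ := hnot
  rw [map_add] at hi
  have hs := hsmall i
  rw [abs_lt] at hs
  have htight : Lf (A i) (pt k) = b i := by
    by_contra hne
    have hlt : Lf (A i) (pt k) < b i := lt_of_le_of_ne (h.pt_le i k) hne
    have h3 := h1 i k hlt
    have h4 : min ε1 ε2 ≤ ε1 := min_le_left _ _
    linarith
  refine ⟨i, htight, ?_⟩
  linarith

end Pool.Agent.Work.MP_83f734_co
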