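import Mathlib
import Pool.Agent.Work.MP_83f734_co.LowerA

set_option autoImplicit false

namespace Pool.Agent.Work.MP_83f734_co

open Module

variable {A : Fin 4 → Fin 5 → ℝ} {b : Fin 4 → ℝ}

/-- real version -/
noncomputable def LR (A : Fin 4 → Fin 5 → ℝ) : (Fin 5 → ℝ) →ₗ[ℝ] (Fin 4 → ℝ) where
  toFun y i := ∑ j, A i j * y j
  map_add' x y := by ext i; simp [mul_add, Finset.sum_add_distrib]
  map_smul' c x := by
    ext i
    simp only [Pi.smul_apply, smul_eq_mul, RingHom.id_apply, Finset.mul_sum]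
    refine Finset.sum_congr rfl fun j _ => ?_
    ring

theorem LR_apply (y : Fin 5 → ℝ) (i : Fin 4) : LR A y i = ∑ j, A i j * y j := rfl

theorem Bad.no_real_rec (h : Bad A b) (y : Fin 5 → ℝ) (hy : ∀ i, LR A y i < 0) : False := by
  -- uniform gap
  obtain ⟨δ, hδ, hgap⟩ : ∃ δ : ℝ, 0 < δ ∧ ∀ i, LR A y i ≤ -δ := by
    have hne : (Finset.univ : Finset (Fin 4)).Nonempty := ⟨0, Finset.mem_univ _⟩
    refine ⟨-(Finset.univ.sup' hne (fun i => LR A y i)), ?_, ?_⟩
    · rw [neg_pos, Finset.sup'_lt_iff]
      intro i _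
      exact hy i
    · intro i
      rw [neg_neg]
      exact Finset.le_sup' (fun i => LR A y i) (Finset.mem_univ i)
  set C : ℝ := ∑ i, ∑ j, |A i j| with hC
  obtain ⟨n, hn⟩ := exists_nat_gt (C / δ)
  have hnδ : C < n * δ := by rwa [div_lt_iff₀ hδ] at hn
  let z : Fin 5 → ℤ := fun j => ⌊(n : ℝ) * y j⌋
  have hz : ∀ i, Lf (A i) z < 0 := by
    intro i
    have h1 : Lf (A i) z = n * LR A y i - ∑ j, A i j * Int.fract ((n : ℝ) * y j) := by
      rw [Lf_apply, LR_apply, Finset.mul_sum, ← Finset.sum_sub_distrib]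
      refine Finset.sum_congr rfl fun j _ => ?_
      have : ((z j : ℤ) : ℝ) = (n : ℝ) * y j - Int.fract ((n : ℝ) * y j) := by
        rw [Int.self_sub_fract]
      rw [this]; ring
    have h2 : -(∑ j, A i j * Int.fract ((n : ℝ) * y j)) ≤ ∑ j, |A i j| := by
      rw [← Finset.sum_neg_distrib]
      refine Finset.sum_le_sum fun j _ => ?_
      have h3 := Int.fract_nonneg ((n : ℝ) * y j)
      have h4 := (Int.fract_lt_one ((n : ℝ) * y j)).le
      have h5 := neg_abs_le (A i j)
      have h6 := abs_nonneg (A i j)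
      nlinarith
    have h3 : ∑ j, |A i j| ≤ C := by
      rw [hC]
      exact Finset.single_le_sum (f := fun i => ∑ j, |A i j|)
        (fun i _ => Finset.sum_nonneg fun j _ => abs_nonneg _) (Finset.mem_univ i)
    have h4 := hgap i
    have h5 : (n : ℝ) * LR A y i ≤ n * (-δ) :=
      mul_le_mul_of_nonneg_left h4 (Nat.cast_nonneg n)
    rw [h1]
    linarith
  have := h.no_rec z (fun i => (hz i).le)
  have h0 := hz 0
  rw [this, map_zero] at h0
  exact lt_irrefl _ h0

/-- Gordan's alternative: a nonnegative nonzero combination of the rows vanishes. -/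
theorem Bad.gordan (h : Bad A b) : ∃ c : Fin 4 → ℝ, (∀ i, 0 ≤ c i) ∧ (∃ i, c i ≠ 0) ∧
    ∀ z : Fin 5 → ℤ, ∑ i, c i * Lf (A i) z = 0 := by
  let O : Set (Fin 4 → ℝ) := {v | ∀ i, v i < 0}
  have hO1 : Convex ℝ O := by
    intro x hx y hy s t hs ht hst i
    have h1 := hx i
    have h2 := hy i
    simp only [Pi.add_apply, Pi.smul_apply, smul_eq_mul]
    rcases hs.lt_or_eq with h3 | h3
    · nlinarith
    · have : t = 1 := by linarith
      rw [← h3, this]; linarith
  have hO2 : IsOpen O := by
    have : O = ⋂ i, {v : Fin 4 → ℝ | v i < 0} := by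
      ext v; simp [O]
    rw [this]
    exact isOpen_iInter_of_finite fun i => isOpen_lt (continuous_apply i) continuous_const
  let T : Set (Fin 4 → ℝ) := LinearMap.range (LR A)
  have hT : Convex ℝ T := (LinearMap.range (LR A)).convex
  have hdisj : Disjoint O T := by
    rw [Set.disjoint_left]
    rintro v hv ⟨y, rfl⟩
    exact h.no_real_rec y hv
  obtain ⟨f, u, hf1, hf2⟩ := geometric_hahn_banach_open hO1 hO2 hT hdisj
  -- f vanishes on T
  have hu0 : u ≤ 0 := by
    have := hf2 0 ((LinearMap.range (LR A)).zero_mem)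
    rwa [map_zero] at this
  have hf0 : ∀ v ∈ T, f v = 0 := by
    intro v hv
    by_contra hne
    have h1 : ∀ t : ℝ, u ≤ t * f v := by
      intro t
      have := hf2 (t • v) ((LinearMap.range (LR A)).smul_mem t hv)
      rwa [map_smul, smul_eq_mul] at this
    have h2 := h1 ((u - 1) / f v)
    rw [div_mul_cancel₀ _ hne] at h2
    linarith
  let c : Fin 4 → ℝ := fun i => f (Pi.single i 1)
  have hfc : ∀ v, f v = ∑ i, c i * v i := by
    intro v
    have : v = ∑ i, v i • (Pi.single i (1 : ℝ) : Fin 4 → ℝ) := by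
      ext j
      simp [Finset.sum_apply, Pi.single_apply]
    conv_lhs => rw [this]
    rw [map_sum]
    refine Finset.sum_congr rfl fun i _ => ?_
    rw [map_smul, smul_eq_mul, mul_comm]
  refine ⟨c, ?_, ?_, ?_⟩
  · intro i
    by_contra hneg
    push Not at hneg
    -- v = -M e_i - 1
    have h1 : ∀ M : ℝ, 0 ≤ M → M * (-c i) - ∑ j, c j < 0 := by
      intro M hM
      have hv : (fun j => -(M * (if j = i then 1 else 0)) - 1 : Fin 4 → ℝ) ∈ O := by
        intro j
        show -(M * (if j = i then 1 else 0)) - 1 < 0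
        split_ifs <;> linarith
      have h2 := hf1 _ hv
      rw [hfc] at h2
      have h3 : ∑ j, c j * (-(M * (if j = i then 1 else 0)) - 1) = M * (-c i) - ∑ j, c j := by
        have : ∀ j, c j * (-(M * (if j = i then 1 else 0)) - 1)
            = (if j = i then M * (-c j) else 0) - c j := by
          intro j; split_ifs <;> ring
        simp only [this]
        rw [Finset.sum_sub_distrib]
        simp
      rw [h3] at h2
      linarith
    have h2 := h1 ((|∑ j, c j| + 1) / (-c i)) (by
      apply div_nonneg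
      · positivity
      · linarith)
    rw [div_mul_cancel₀ _ (by linarith)] at h2
    have := le_abs_self (∑ j, c j)
    linarith
  · by_contra hcon
    push Not at hcon
    have hv : (fun _ => -1 : Fin 4 → ℝ) ∈ O := by
      intro j
      show (-1 : ℝ) < 0
      norm_num
    have h2 := hf1 _ hv
    rw [hfc] at h2
    simp [hcon] at h2
    linarith
  · intro z
    have h1 : (LR A (fun j => (z j : ℝ))) ∈ T := ⟨_, rfl⟩
    have h2 := hf0 _ h1
    rw [hfc] at h2
    rw [← h2]
    refine Finset.sum_congr rfl fun i _ => ?_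
    rw [Lf_apply, LR_apply]

end Pool.Agent.Work.MP_83f734_co
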