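import Mathlib
import Pool.Agent.Work.MP_83f734_co.LowerB

set_option autoImplicit false

namespace Pool.Agent.Work.MP_83f734_co

open Module

variable {A : Fin 4 → Fin 5 → ℝ} {b : Fin 4 → ℝ}

/-- `ε` is a threshold: all small nonzero vectors are positive on some tight row of every point. -/
def Thr (A : Fin 4 → Fin 5 → ℝ) (b : Fin 4 → ℝ) (ε : ℝ) : Prop :=
  0 < ε ∧ ∀ z, z ≠ 0 → (∀ i, |Lf (A i) z| < ε) →
    ∀ k, ∃ i, Lf (A i) (pt k) = b i ∧ 0 < Lf (A i) z

theorem Thr.neg {ε : ℝ} (h : Thr A b ε) {z : Fin 5 → ℤ} (hz : z ≠ 0)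
    (hs : ∀ i, |Lf (A i) z| < ε) (k : Fin 6) :
    ∃ i, Lf (A i) (pt k) = b i ∧ Lf (A i) z < 0 := by
  obtain ⟨i, h1, h2⟩ := h.2 (-z) (neg_ne_zero.mpr hz) (by
    intro i; rw [map_neg, abs_neg]; exact hs i) k
  rw [map_neg] at h2
  exact ⟨i, h1, by linarith⟩

theorem Bad.two_pos (_h : Bad A b) {ε : ℝ} (ht : Thr A b ε) {z : Fin 5 → ℤ} (hz : z ≠ 0)
    (hs : ∀ i, |Lf (A i) z| < ε) : ∃ i j, i ≠ j ∧ 0 < Lf (A i) z ∧ 0 < Lf (A j) z := by
  obtain ⟨i, _, hi⟩ := ht.2 z hz hs 0
  by_contra hcon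
  push Not at hcon
  have hall : ∀ k, Lf (A i) (pt k) = b i := by
    intro k
    obtain ⟨j, hj1, hj2⟩ := ht.2 z hz hs k
    by_cases hij : i = j
    · rw [hij]; exact hj1
    · have := hcon i j hij hi
      linarith
  have := Bad.row_zero i hall z
  linarith

theorem Bad.two_neg (h : Bad A b) {ε : ℝ} (ht : Thr A b ε) {z : Fin 5 → ℤ} (hz : z ≠ 0)
    (hs : ∀ i, |Lf (A i) z| < ε) : ∃ i j, i ≠ j ∧ Lf (A i) z < 0 ∧ Lf (A j) z < 0 := by
  obtain ⟨i, j, hij, h1, h2⟩ := h.two_pos ht (z := -z) (neg_ne_zero.mpr hz) (by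
    intro i; rw [map_neg, abs_neg]; exact hs i)
  rw [map_neg] at h1 h2
  exact ⟨i, j, hij, by linarith, by linarith⟩

theorem fin4_exhaust {i j k l : Fin 4} (h1 : i ≠ j) (h2 : k ≠ l) (h3 : i ≠ k) (h4 : i ≠ l)
    (h5 : j ≠ k) (h6 : j ≠ l) (m : Fin 4) : m = i ∨ m = j ∨ m = k ∨ m = l := by
  omega

theorem fin4_others : ∀ i j : Fin 4, i ≠ j →
    ∃ p q : Fin 4, p ≠ q ∧ i ≠ p ∧ i ≠ q ∧ j ≠ p ∧ j ≠ q := by decide

/-- no row vanishes on a small nonzero vector -/
theorem Bad.ne_zero (h : Bad A b) {ε : ℝ} (ht : Thr A b ε) {z : Fin 5 → ℤ} (hz : z ≠ 0)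
    (hs : ∀ i, |Lf (A i) z| < ε) (m : Fin 4) : Lf (A m) z ≠ 0 := by
  obtain ⟨i, j, hij, h1, h2⟩ := h.two_pos ht hz hs
  obtain ⟨k, l, hkl, h3, h4⟩ := h.two_neg ht hz hs
  have e1 : i ≠ k := by rintro rfl; linarith
  have e2 : i ≠ l := by rintro rfl; linarith
  have e3 : j ≠ k := by rintro rfl; linarith
  have e4 : j ≠ l := by rintro rfl; linarith
  rcases fin4_exhaust hij hkl e1 e2 e3 e4 m with rfl | rfl | rfl | rfl
  · exact h1.ne'
  · exact h2.ne'
  · exact h3.ne
  · exact h4.ne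

/-- every nonzero vector has a positive and a negative row -/
theorem Bad.exists_pos (h : Bad A b) {z : Fin 5 → ℤ} (hz : z ≠ 0) : ∃ i, 0 < Lf (A i) z := by
  by_contra hcon
  push Not at hcon
  exact hz (h.no_rec z hcon)

theorem Bad.exists_neg (h : Bad A b) {z : Fin 5 → ℤ} (hz : z ≠ 0) : ∃ i, Lf (A i) z < 0 := by
  obtain ⟨i, hi⟩ := h.exists_pos (neg_ne_zero.mpr hz)
  rw [map_neg] at hi
  exact ⟨i, by linarith⟩

/-- The relation with positive constant. -/
theorem Bad.relation (h : Bad A b) : ∃ c : Fin 4 → ℝ, (∀ i, 0 ≤ c i) ∧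
    (∀ z : Fin 5 → ℤ, ∑ i, c i * Lf (A i) z = 0) ∧ 0 < ∑ i, c i * b i := by
  obtain ⟨c, hc0, ⟨m, hm⟩, hrel⟩ := h.gordan
  refine ⟨c, hc0, hrel, ?_⟩
  obtain ⟨ε, hε, ht⟩ := h.threshold
  have hthr : Thr A b ε := ⟨hε, ht⟩
  obtain ⟨z, hz, hs⟩ := h.exists_small hε
  have hne := h.ne_zero hthr hz hs
  -- value at the points
  have hval : ∀ k, ∑ i, c i * b i = ∑ i, c i * (b i - Lf (A i) (pt k)) := by
    intro k
    have := hrel (pt k)
    simp only [mul_sub, Finset.sum_sub_distrib]
    rw [this, sub_zero]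
  have hterm : ∀ k i, 0 ≤ c i * (b i - Lf (A i) (pt k)) := by
    intro k i
    exact mul_nonneg (hc0 i) (sub_nonneg.mpr (h.pt_le i k))
  have hnn : 0 ≤ ∑ i, c i * b i := by
    rw [hval 0]
    exact Finset.sum_nonneg fun i _ => hterm 0 i
  rcases hnn.lt_or_eq with h1 | h1
  · exact h1
  · exfalso
    have hall : ∀ k, Lf (A m) (pt k) = b m := by
      intro k
      have h2 := hval k
      rw [← h1] at h2
      have h3 := (Finset.sum_eq_zero_iff_of_nonneg (fun i _ => hterm k i)).mp h2.symm m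
        (Finset.mem_univ m)
      rcases mul_eq_zero.mp h3 with h4 | h4
      · exact absurd h4 hm
      · linarith
    exact hne m (Bad.row_zero m hall z)

/-- (Q): at most two of the six points are tight for two given rows. -/
theorem Bad.at_most_two (h : Bad A b) {i j : Fin 4} (hij : i ≠ j) {k l m : Fin 6} (hkl : k ≠ l)
    (hkm : k ≠ m) (hlm : l ≠ m)
    (hk : Lf (A i) (pt k) = b i ∧ Lf (A j) (pt k) = b j)
    (hl : Lf (A i) (pt l) = b i ∧ Lf (A j) (pt l) = b j)
    (hm : Lf (A i) (pt m) = b i ∧ Lf (A j) (pt m) = b j) : False := by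
  obtain ⟨c, hc0, hrel, hβ⟩ := h.relation
  obtain ⟨ε, hε, ht⟩ := h.threshold
  have hthr : Thr A b ε := ⟨hε, ht⟩
  -- the other two rows
  obtain ⟨p, q, hpq, hip, hiq, hjp, hjq⟩ : ∃ p q : Fin 4, p ≠ q ∧ i ≠ p ∧ i ≠ q ∧ j ≠ p ∧ j ≠ q := fin4_others i j hij
  have hex : ∀ r : Fin 4, r = i ∨ r = j ∨ r = p ∨ r = q := fin4_exhaust hij hpq hip hiq hjp hjq
  -- sums over Fin 4 split
  have hsum : ∀ f : Fin 4 → ℝ, ∑ r, f r = f i + f j + f p + f q := by
    intro f
    have : (Finset.univ : Finset (Fin 4)) = {i, j, p, q} := by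
      ext r; simpa using hex r
    rw [this, Finset.sum_insert, Finset.sum_insert, Finset.sum_insert, Finset.sum_singleton]
    · ring
    · simpa using hpq
    · simp [hjp, hjq]
    · simp [hij, hip, hiq]
  -- integer combinations
  let w : ℤ → ℤ → (Fin 5 → ℤ) := fun s t => s • (pt l - pt k) + t • (pt m - pt k)
  have hw : ∀ s t, w s t = s • (pt l - pt k) + t • (pt m - pt k) := fun _ _ => rfl
  have hwne : ∀ s t, w s t = 0 → s = 0 ∧ t = 0 := by
    intro s t h0
    have h1 : lam l (w s t) = s := by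
      rw [hw, lam_add, lam_smul, lam_smul, lam_pt, lam_pt]
      simp [hkl.symm, hlm]
    have h2 : lam m (w s t) = t := by
      rw [hw, lam_add, lam_smul, lam_smul, lam_pt, lam_pt]
      simp [hkm.symm, hlm.symm]
    have h3 : ∀ r, lam r (0 : Fin 5 → ℤ) = 0 := by decide
    rw [h0, h3] at h1 h2
    exact ⟨h1.symm, h2.symm⟩
  have hLi : ∀ s t, Lf (A i) (w s t) = 0 := by
    intro s t
    rw [hw, map_add, map_smul, map_smul, map_sub, map_sub, hk.1, hl.1, hm.1]
    simp
  have hLj : ∀ s t, Lf (A j) (w s t) = 0 := by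
    intro s t
    rw [hw, map_add, map_smul, map_smul, map_sub, map_sub, hk.2, hl.2, hm.2]
    simp
  have hrel2 : ∀ s t, c p * Lf (A p) (w s t) + c q * Lf (A q) (w s t) = 0 := by
    intro s t
    have := hrel (w s t)
    rw [hsum, hLi, hLj] at this
    linarith
  -- opposite signs
  have hopp : ∀ s t, ¬ (s = 0 ∧ t = 0) →
      (0 < Lf (A p) (w s t) ∧ Lf (A q) (w s t) < 0) ∨
      (Lf (A p) (w s t) < 0 ∧ 0 < Lf (A q) (w s t)) := by
    intro s t hst
    have hne : w s t ≠ 0 := fun h0 => hst (hwne s t h0)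
    obtain ⟨r, hr⟩ := h.exists_pos hne
    obtain ⟨r', hr'⟩ := h.exists_neg hne
    rcases hex r with rfl | rfl | rfl | rfl
    · rw [hLi] at hr; exact absurd hr (lt_irrefl _)
    · rw [hLj] at hr; exact absurd hr (lt_irrefl _)
    · left
      refine ⟨hr, ?_⟩
      rcases hex r' with rfl | rfl | rfl | rfl
      · rw [hLi] at hr'; exact absurd hr' (lt_irrefl _)
      · rw [hLj] at hr'; exact absurd hr' (lt_irrefl _)
      · linarith
      · exact hr'
    · right
      refine ⟨?_, hr⟩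
      rcases hex r' with rfl | rfl | rfl | rfl
      · rw [hLi] at hr'; exact absurd hr' (lt_irrefl _)
      · rw [hLj] at hr'; exact absurd hr' (lt_irrefl _)
      · exact hr'
      · linarith
  -- both coefficients positive
  have hcpq : 0 < c p * (b p - Lf (A p) (pt k)) + c q * (b q - Lf (A q) (pt k)) := by
    have h1 := hrel (pt k)
    rw [hsum] at h1 hβ
    rw [hk.1, hk.2] at h1
    linarith
  have hcp : 0 < c p := by
    rcases (hc0 p).lt_or_eq with h1 | h1
    · exact h1
    · exfalso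
      have h2 := hrel2 1 0
      rw [← h1, zero_mul, zero_add] at h2
      have h3 := hopp 1 0 (by omega)
      have hq0 : Lf (A q) (w 1 0) ≠ 0 := by
        rcases h3 with ⟨_, h3⟩ | ⟨_, h3⟩
        · exact h3.ne
        · exact h3.ne'
      have h4 : c q = 0 := by
        rcases mul_eq_zero.mp h2 with h4 | h4
        · exact h4
        · exact absurd h4 hq0
      rw [← h1, h4] at hcpq
      simp at hcpq
  have hcq : 0 < c q := by
    rcases (hc0 q).lt_or_eq with h1 | h1
    · exact h1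
    · exfalso
      have h2 := hrel2 1 0
      rw [← h1, zero_mul, add_zero] at h2
      have h3 := hopp 1 0 (by omega)
      have hq0 : Lf (A p) (w 1 0) ≠ 0 := by
        rcases h3 with ⟨h3, _⟩ | ⟨h3, _⟩
        · exact h3.ne'
        · exact h3.ne
      have h4 : c p = 0 := by
        rcases mul_eq_zero.mp h2 with h4 | h4
        · exact h4
        · exact absurd h4 hq0
      exact hcp.ne' h4
  -- small combination
  have hlin : ∀ s t : ℤ, Lf (A p) (w s t) =
      s * Lf (A p) (pt l - pt k) + t * Lf (A p) (pt m - pt k) := by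
    intro s t
    rw [hw, map_add, map_smul, map_smul]
    simp
  obtain ⟨s, t, hst, hsm⟩ := exists_small_comb (Lf (A p) (pt l - pt k)) (Lf (A p) (pt m - pt k))
    (by
      intro s t h0
      by_contra hst
      rw [← hlin] at h0
      rcases hopp s t hst with ⟨h1, _⟩ | ⟨h1, _⟩ <;> linarith)
    (ε := min ε (ε * c q / c p)) (lt_min hε (by positivity))
  rw [← hlin] at hsm
  have hwst : w s t ≠ 0 := fun h0 => hst (hwne s t h0)
  have hsmall : ∀ r, |Lf (A r) (w s t)| < ε := by
    intro r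
    rcases hex r with rfl | rfl | rfl | rfl
    · rw [hLi, abs_zero]; exact hε
    · rw [hLj, abs_zero]; exact hε
    · exact hsm.trans_le (min_le_left _ _)
    · have h1 := hrel2 s t
      have h2 : Lf (A r) (w s t) = -(c p * Lf (A p) (w s t)) / c r := by
        field_simp
        linarith
      rw [h2, abs_div, abs_neg, abs_mul, abs_of_pos hcp, abs_of_pos hcq, div_lt_iff₀ hcq]
      have h3 := hsm.trans_le (min_le_right _ _)
      rw [lt_div_iff₀ hcp] at h3
      linarith
  exact h.ne_zero hthr hwst hsmall i (hLi s t)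

/-- The reorganised situation: rows split in two pairs `X`, `Y` with opposite signs on all
small vectors. -/
structure Two (X Y : Fin 2 → (Fin 5 → ℤ) →ₗ[ℤ] ℝ) (x y : Fin 2 → ℝ) : Prop where
  bad : ∀ v, ((∀ i, X i v ≤ x i) ∧ (∀ j, Y j v ≤ y j)) ↔ ∃ k, v = pt k
  small : ∀ ε : ℝ, 0 < ε → ∃ z, z ≠ 0 ∧ (∀ i, |X i z| < ε) ∧ (∀ j, |Y j z| < ε)
  sync : ∃ ε : ℝ, 0 < ε ∧ ∀ z, z ≠ 0 → (∀ i, |X i z| < ε) → (∀ j, |Y j z| < ε) →
    ((∀ i, 0 < X i z) ∧ (∀ j, Y j z < 0)) ∨ ((∀ i, X i z < 0) ∧ (∀ j, 0 < Y j z))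
  tight : ∀ k, (∃ i, X i (pt k) = x i) ∧ (∃ j, Y j (pt k) = y j)
  two : ∀ i j k l m, k ≠ l → k ≠ m → l ≠ m → (X i (pt k) = x i ∧ Y j (pt k) = y j) →
    (X i (pt l) = x i ∧ Y j (pt l) = y j) → (X i (pt m) = x i ∧ Y j (pt m) = y j) → False
  rel : ∃ cX cY : Fin 2 → ℝ, (∀ i, 0 ≤ cX i) ∧ (∀ j, 0 ≤ cY j) ∧
    (∀ z, ∑ i, cX i * X i z + ∑ j, cY j * Y j z = 0) ∧
    0 < ∑ i, cX i * x i + ∑ j, cY j * y j

/-- pigeonhole: six points, two classes. -/
theorem pigeon_six (P : Fin 6 → Prop) : ∃ k l m : Fin 6, k ≠ l ∧ k ≠ m ∧ l ≠ m ∧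
    ((P k ∧ P l ∧ P m) ∨ (¬ P k ∧ ¬ P l ∧ ¬ P m)) := by
  classical
  have hd : ∀ f : Fin 6 → Bool, ∃ k l m : Fin 6, k ≠ l ∧ k ≠ m ∧ l ≠ m ∧
      f k = f l ∧ f l = f m := by decide +kernel
  obtain ⟨k, l, m, h1, h2, h3, h4, h5⟩ := hd (fun k => decide (P k))
  refine ⟨k, l, m, h1, h2, h3, ?_⟩
  rw [decide_eq_decide] at h4 h5
  by_cases hk : P k
  · left; exact ⟨hk, h4.mp hk, h5.mp (h4.mp hk)⟩
  · right
    exact ⟨hk, fun h => hk (h4.mpr h), fun h => hk (h4.mpr (h5.mpr h))⟩

/-- From four rows to the reorganised situation. -/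
theorem Bad.exists_two (h : Bad A b) : ∃ X Y x y, Two X Y x y := by
  obtain ⟨ε, hε, ht⟩ := h.threshold
  have hthr : Thr A b ε := ⟨hε, ht⟩
  obtain ⟨z0, hz0, hs0⟩ := h.exists_small hε
  obtain ⟨i, j, hij, hi, hj⟩ := h.two_pos hthr hz0 hs0
  obtain ⟨p, q, hpq, hp, hq⟩ := h.two_neg hthr hz0 hs0
  have hip : i ≠ p := by rintro rfl; linarith
  have hiq : i ≠ q := by rintro rfl; linarith
  have hjp : j ≠ p := by rintro rfl; linarith
  have hjq : j ≠ q := by rintro rfl; linarith
  have hex : ∀ r : Fin 4, r = i ∨ r = j ∨ r = p ∨ r = q := fin4_exhaust hij hpq hip hiq hjp hjq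
  have hsum : ∀ f : Fin 4 → ℝ, ∑ r, f r = f i + f j + f p + f q := by
    intro f
    have : (Finset.univ : Finset (Fin 4)) = {i, j, p, q} := by
      ext r; simpa using hex r
    rw [this, Finset.sum_insert, Finset.sum_insert, Finset.sum_insert, Finset.sum_singleton]
    · ring
    · simpa using hpq
    · simp [hjp, hjq]
    · simp [hij, hip, hiq]
  have hall : ∀ P : Fin 4 → Prop, (∀ r, P r) ↔ (P i ∧ P j ∧ P p ∧ P q) := by
    intro P
    constructor
    · intro h; exact ⟨h i, h j, h p, h q⟩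
    · rintro ⟨h1, h2, h3, h4⟩ r
      rcases hex r with rfl | rfl | rfl | rfl <;> assumption
  -- tightness of every point in both pairs
  have htp : ∀ k, (Lf (A i) (pt k) = b i ∨ Lf (A j) (pt k) = b j) := by
    intro k
    obtain ⟨r, hr1, hr2⟩ := ht z0 hz0 hs0 k
    rcases hex r with rfl | rfl | rfl | rfl
    · exact Or.inl hr1
    · exact Or.inr hr1
    · linarith
    · linarith
  have htn : ∀ k, (Lf (A p) (pt k) = b p ∨ Lf (A q) (pt k) = b q) := by
    intro k
    obtain ⟨r, hr1, hr2⟩ := hthr.neg hz0 hs0 k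
    rcases hex r with rfl | rfl | rfl | rfl
    · linarith
    · linarith
    · exact Or.inl hr1
    · exact Or.inr hr1
  -- no small vector separates i from j
  have hsep : ∀ z, z ≠ 0 → (∀ r, |Lf (A r) z| < ε) → 0 < Lf (A i) z → 0 < Lf (A j) z := by
    intro z hz hs hiz
    by_contra hcon
    have hjz : Lf (A j) z < 0 := lt_of_le_of_ne (not_lt.mp hcon) (h.ne_zero hthr hz hs j)
    -- one of p, q positive, other negative
    have hpqs : (0 < Lf (A p) z ∧ Lf (A q) z < 0) ∨ (Lf (A p) z < 0 ∧ 0 < Lf (A q) z) := by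
      obtain ⟨r, r', hrr, h1, h2⟩ := h.two_pos hthr hz hs
      obtain ⟨t, t', htt, h3, h4⟩ := h.two_neg hthr hz hs
      have hpne := h.ne_zero hthr hz hs p
      have hqne := h.ne_zero hthr hz hs q
      rcases lt_or_gt_of_ne hpne with hp' | hp' <;> rcases lt_or_gt_of_ne hqne with hq' | hq'
      · exfalso
        -- only i is positive
        have e1 : r = i := by
          rcases hex r with e | e | e | e
          · exact e
          · rw [e] at h1; linarith
          · rw [e] at h1; linarith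
          · rw [e] at h1; linarith
        have e2 : r' = i := by
          rcases hex r' with e | e | e | e
          · exact e
          · rw [e] at h2; linarith
          · rw [e] at h2; linarith
          · rw [e] at h2; linarith
        exact hrr (e1.trans e2.symm)
      · exact Or.inr ⟨hp', hq'⟩
      · exact Or.inl ⟨hp', hq'⟩
      · exfalso
        have e1 : t = j := by
          rcases hex t with e | e | e | e
          · rw [e] at h3; linarith
          · exact e
          · rw [e] at h3; linarith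
          · rw [e] at h3; linarith
        have e2 : t' = j := by
          rcases hex t' with e | e | e | e
          · rw [e] at h4; linarith
          · exact e
          · rw [e] at h4; linarith
          · rw [e] at h4; linarith
        exact htt (e1.trans e2.symm)
    rcases hpqs with ⟨hp', hq'⟩ | ⟨hp', hq'⟩
    · -- positive: i, p ; negative: j, q
      have hA : ∀ k, (Lf (A i) (pt k) = b i ∨ Lf (A p) (pt k) = b p) := by
        intro k
        obtain ⟨r, hr1, hr2⟩ := ht z hz hs k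
        rcases hex r with e | e | e | e
        · left; rw [← e]; exact hr1
        · rw [e] at hr2; linarith
        · right; rw [← e]; exact hr1
        · rw [e] at hr2; linarith
      have hB : ∀ k, (Lf (A j) (pt k) = b j ∨ Lf (A q) (pt k) = b q) := by
        intro k
        obtain ⟨r, hr1, hr2⟩ := hthr.neg hz hs k
        rcases hex r with e | e | e | e
        · rw [e] at hr2; linarith
        · left; rw [← e]; exact hr1
        · rw [e] at hr2; linarith
        · right; rw [← e]; exact hr1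
      obtain ⟨k, l, m, h1, h2, h3, h4⟩ := pigeon_six
        (fun k => Lf (A i) (pt k) = b i ∧ Lf (A q) (pt k) = b q)
      have hclass : ∀ k, ¬ (Lf (A i) (pt k) = b i ∧ Lf (A q) (pt k) = b q) →
          (Lf (A j) (pt k) = b j ∧ Lf (A p) (pt k) = b p) := by
        intro k
        have := htp k
        have := htn k
        have := hA k
        have := hB k
        tauto
      rcases h4 with ⟨h4, h5, h6⟩ | ⟨h4, h5, h6⟩
      · exact h.at_most_two hiq h1 h2 h3 h4 h5 h6
      · exact h.at_most_two hjp h1 h2 h3 (hclass _ h4) (hclass _ h5) (hclass _ h6)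
    · -- positive: i, q ; negative: j, p
      have hA : ∀ k, (Lf (A i) (pt k) = b i ∨ Lf (A q) (pt k) = b q) := by
        intro k
        obtain ⟨r, hr1, hr2⟩ := ht z hz hs k
        rcases hex r with e | e | e | e
        · left; rw [← e]; exact hr1
        · rw [e] at hr2; linarith
        · rw [e] at hr2; linarith
        · right; rw [← e]; exact hr1
      have hB : ∀ k, (Lf (A j) (pt k) = b j ∨ Lf (A p) (pt k) = b p) := by
        intro k
        obtain ⟨r, hr1, hr2⟩ := hthr.neg hz hs k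
        rcases hex r with e | e | e | e
        · rw [e] at hr2; linarith
        · left; rw [← e]; exact hr1
        · right; rw [← e]; exact hr1
        · rw [e] at hr2; linarith
      obtain ⟨k, l, m, h1, h2, h3, h4⟩ := pigeon_six
        (fun k => Lf (A i) (pt k) = b i ∧ Lf (A p) (pt k) = b p)
      have hclass : ∀ k, ¬ (Lf (A i) (pt k) = b i ∧ Lf (A p) (pt k) = b p) →
          (Lf (A j) (pt k) = b j ∧ Lf (A q) (pt k) = b q) := by
        intro k
        have := htp k
        have := htn k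
        have := hA k
        have := hB k
        tauto
      rcases h4 with ⟨h4, h5, h6⟩ | ⟨h4, h5, h6⟩
      · exact h.at_most_two hip h1 h2 h3 h4 h5 h6
      · exact h.at_most_two hjq h1 h2 h3 (hclass _ h4) (hclass _ h5) (hclass _ h6)
  have hsync : ∀ z, z ≠ 0 → (∀ r, |Lf (A r) z| < ε) → 0 < Lf (A i) z →
      (0 < Lf (A j) z ∧ Lf (A p) z < 0 ∧ Lf (A q) z < 0) := by
    intro z hz hs hiz
    have hjz := hsep z hz hs hiz
    obtain ⟨t, t', htt, h3, h4⟩ := h.two_neg hthr hz hs
    have ht1 : t = p ∨ t = q := by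
      rcases hex t with e | e | e | e
      · rw [e] at h3; linarith
      · rw [e] at h3; linarith
      · exact Or.inl e
      · exact Or.inr e
    have ht2 : t' = p ∨ t' = q := by
      rcases hex t' with e | e | e | e
      · rw [e] at h4; linarith
      · rw [e] at h4; linarith
      · exact Or.inl e
      · exact Or.inr e
    refine ⟨hjz, ?_, ?_⟩
    · rcases ht1 with e | e
      · rw [← e]; exact h3
      · rcases ht2 with e' | e'
        · rw [← e']; exact h4
        · exact absurd (e.trans e'.symm) htt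
    · rcases ht1 with e | e
      · rcases ht2 with e' | e'
        · exact absurd (e.trans e'.symm) htt
        · rw [← e']; exact h4
      · rw [← e]; exact h3
  refine ⟨![Lf (A i), Lf (A j)], ![Lf (A p), Lf (A q)], ![b i, b j], ![b p, b q], ?_⟩
  refine ⟨?_, ?_, ?_, ?_, ?_, ?_⟩
  · intro v
    rw [← h v, hall, Fin.forall_fin_two, Fin.forall_fin_two]
    simp [and_assoc]
  · intro δ hδ
    obtain ⟨z, hz, hs⟩ := h.exists_small hδ
    refine ⟨z, hz, ?_, ?_⟩
    · rw [Fin.forall_fin_two]; exact ⟨hs i, hs j⟩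
    · rw [Fin.forall_fin_two]; exact ⟨hs p, hs q⟩
  · refine ⟨ε, hε, ?_⟩
    intro z hz hX hY
    rw [Fin.forall_fin_two] at hX hY
    have hs : ∀ r, |Lf (A r) z| < ε := by
      rw [hall]; exact ⟨hX.1, hX.2, hY.1, hY.2⟩
    rw [Fin.forall_fin_two, Fin.forall_fin_two, Fin.forall_fin_two, Fin.forall_fin_two]
    rcases lt_or_gt_of_ne (h.ne_zero hthr hz hs i) with h1 | h1
    · right
      have h2 := hsync (-z) (neg_ne_zero.mpr hz) (by
        intro r; rw [map_neg, abs_neg]; exact hs r) (by rw [map_neg]; linarith)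
      simp only [map_neg] at h2
      refine ⟨⟨h1, ?_⟩, ?_, ?_⟩
      · show Lf (A j) z < 0
        linarith [h2.1]
      · show 0 < Lf (A p) z
        linarith [h2.2.1]
      · show 0 < Lf (A q) z
        linarith [h2.2.2]
    · left
      have h2 := hsync z hz hs h1
      exact ⟨⟨h1, h2.1⟩, h2.2.1, h2.2.2⟩
  · intro k
    refine ⟨?_, ?_⟩
    · rcases htp k with h1 | h1
      · exact ⟨0, h1⟩
      · exact ⟨1, h1⟩
    · rcases htn k with h1 | h1
      · exact ⟨0, h1⟩
      · exact ⟨1, h1⟩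
  · have key : ∀ r t : Fin 4, r ≠ t → ∀ k l m, k ≠ l → k ≠ m → l ≠ m →
        (Lf (A r) (pt k) = b r ∧ Lf (A t) (pt k) = b t) →
        (Lf (A r) (pt l) = b r ∧ Lf (A t) (pt l) = b t) →
        (Lf (A r) (pt m) = b r ∧ Lf (A t) (pt m) = b t) → False :=
      fun r t hrt k l m h1 h2 h3 h4 h5 h6 => h.at_most_two hrt h1 h2 h3 h4 h5 h6
    rw [Fin.forall_fin_two]
    refine ⟨?_, ?_⟩
    · rw [Fin.forall_fin_two]
      exact ⟨key i p hip, key i q hiq⟩
    · rw [Fin.forall_fin_two]
      exact ⟨key j p hjp, key j q hjq⟩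
  · obtain ⟨c, hc0, hrel, hβ⟩ := h.relation
    refine ⟨![c i, c j], ![c p, c q], ?_, ?_, ?_, ?_⟩
    · rw [Fin.forall_fin_two]; exact ⟨hc0 i, hc0 j⟩
    · rw [Fin.forall_fin_two]; exact ⟨hc0 p, hc0 q⟩
    · intro z
      have := hrel z
      rw [hsum] at this
      rw [Fin.sum_univ_two, Fin.sum_univ_two]
      simp only [Matrix.cons_val_zero, Matrix.cons_val_one]
      linarith
    · rw [hsum] at hβ
      rw [Fin.sum_univ_two, Fin.sum_univ_two]
      simp only [Matrix.cons_val_zero, Matrix.cons_val_one]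
      linarith

end Pool.Agent.Work.MP_83f734_co
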