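import Mathlib
import Pool.Agent.Work.MP_83f734_co.LowerC
import Pool.Agent.Work.MP_83f734_co.Euclid

set_option autoImplicit false

namespace Pool.Agent.Work.MP_83f734_co

/-- The rescaled situation. -/
structure Three (X Y : Fin 2 → (Fin 5 → ℤ) →ₗ[ℤ] ℝ) (x y : Fin 2 → ℝ) : Prop where
  bad : ∀ v, ((∀ i, X i v ≤ x i) ∧ (∀ j, Y j v ≤ y j)) ↔ ∃ k, v = pt k
  small : ∀ ε : ℝ, 0 < ε → ∃ z, z ≠ 0 ∧ (∀ i, |X i z| < ε) ∧ (∀ j, |Y j z| < ε)
  sync : ∀ z, (∀ i, |X i z| < 2) → (∀ j, |Y j z| < 2) →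
    X 1 z = X 0 z ∧ Y 0 z = - X 0 z ∧ Y 1 z = - X 0 z
  unit : ∃ z, (∀ i, X i z = 1) ∧ (∀ j, Y j z = -1)
  tight : ∀ k, (∃ i, X i (pt k) = x i) ∧ (∃ j, Y j (pt k) = y j)
  two : ∀ i j k l m, k ≠ l → k ≠ m → l ≠ m → (X i (pt k) = x i ∧ Y j (pt k) = y j) →
    (X i (pt l) = x i ∧ Y j (pt l) = y j) → (X i (pt m) = x i ∧ Y j (pt m) = y j) → False
  rel : ∃ cX cY : Fin 2 → ℝ, (∀ i, 0 ≤ cX i) ∧ (∀ j, 0 ≤ cY j) ∧
    (∀ z, ∑ i, cX i * X i z + ∑ j, cY j * Y j z = 0) ∧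
    0 < ∑ i, cX i * x i + ∑ j, cY j * y j

theorem Two.exists_three {X Y : Fin 2 → (Fin 5 → ℤ) →ₗ[ℤ] ℝ} {x y : Fin 2 → ℝ}
    (h : Two X Y x y) : ∃ X' Y' x' y', Three X' Y' x' y' := by
  obtain ⟨ε, hε, hsync⟩ := h.sync
  -- the combined family
  let K : Fin 2 ⊕ Fin 2 → (Fin 5 → ℤ) →ₗ[ℤ] ℝ := Sum.elim X (fun j => -Y j)
  have hK : ∀ z, z ≠ 0 → (∀ i, |K i z| < ε) → (∀ i, 0 < K i z) ∨ (∀ i, K i z < 0) := by
    intro z hz hs
    have h1 : ∀ i, |X i z| < ε := fun i => hs (Sum.inl i)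
    have h2 : ∀ j, |Y j z| < ε := by
      intro j
      have := hs (Sum.inr j)
      simpa [K] using this
    rcases hsync z hz h1 h2 with ⟨h3, h4⟩ | ⟨h3, h4⟩
    · left
      rintro (i | j)
      · exact h3 i
      · have := h4 j
        simpa [K] using this
    · right
      rintro (i | j)
      · exact h3 i
      · have := h4 j
        simpa [K] using this
  obtain ⟨z0, hz0, hX0, hY0, hX0s, hY0s⟩ : ∃ z0 : Fin 5 → ℤ, z0 ≠ 0 ∧ (∀ i, 0 < X i z0) ∧
      (∀ j, Y j z0 < 0) ∧ (∀ i, |X i z0| < ε / 2) ∧ (∀ j, |Y j z0| < ε / 2) := by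
    obtain ⟨z, hz, h1, h2⟩ := h.small (ε / 2) (by linarith)
    rcases hsync z hz (fun i => (h1 i).trans (by linarith)) (fun j => (h2 j).trans (by linarith))
      with ⟨h3, h4⟩ | ⟨h3, h4⟩
    · exact ⟨z, hz, h3, h4, h1, h2⟩
    · refine ⟨-z, neg_ne_zero.mpr hz, ?_, ?_, ?_, ?_⟩
      · intro i; rw [map_neg]; have := h3 i; linarith
      · intro j; rw [map_neg]; have := h4 j; linarith
      · intro i; rw [map_neg, abs_neg]; exact h1 i
      · intro j; rw [map_neg, abs_neg]; exact h2 j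
  have hKz0 : ∀ i, |K i z0| < ε := by
    rintro (i | j)
    · exact (hX0s i).trans (by linarith)
    · have := (hY0s j).trans (show ε / 2 < ε by linarith)
      simpa [K] using this
  -- values
  let s : Fin 2 → ℝ := fun i => X i z0
  let t : Fin 2 → ℝ := fun j => -Y j z0
  have hs : ∀ i, 0 < s i := hX0
  have ht : ∀ j, 0 < t j := by intro j; have := hY0 j; show 0 < -Y j z0; linarith
  have hs2 : ∀ i, s i < ε / 2 := fun i => (abs_lt.mp (hX0s i)).2
  have ht2 : ∀ j, t j < ε / 2 := by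
    intro j
    have := (abs_lt.mp (hY0s j)).1
    show -Y j z0 < ε / 2
    linarith
  let X' : Fin 2 → (Fin 5 → ℤ) →ₗ[ℤ] ℝ := fun i =>
    { toFun := fun z => X i z / s i
      map_add' := by intro a b; rw [map_add, add_div]
      map_smul' := by intro c a; rw [map_smul]; simp [mul_div_assoc] }
  let Y' : Fin 2 → (Fin 5 → ℤ) →ₗ[ℤ] ℝ := fun j =>
    { toFun := fun z => Y j z / t j
      map_add' := by intro a b; rw [map_add, add_div]
      map_smul' := by intro c a; rw [map_smul]; simp [mul_div_assoc] }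
  have hX' : ∀ i z, X' i z = X i z / s i := fun _ _ => rfl
  have hY' : ∀ j z, Y' j z = Y j z / t j := fun _ _ => rfl
  have hXle : ∀ i z c, X' i z ≤ c / s i ↔ X i z ≤ c := by
    intro i z c
    rw [hX', div_le_div_iff_of_pos_right (hs i)]
  have hYle : ∀ j z c, Y' j z ≤ c / t j ↔ Y j z ≤ c := by
    intro j z c
    rw [hY', div_le_div_iff_of_pos_right (ht j)]
  have hXeq : ∀ i z c, X' i z = c / s i ↔ X i z = c := by
    intro i z c
    rw [hX', div_left_inj' (hs i).ne']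
  have hYeq : ∀ j z c, Y' j z = c / t j ↔ Y j z = c := by
    intro j z c
    rw [hY', div_left_inj' (ht j).ne']
  refine ⟨X', Y', fun i => x i / s i, fun j => y j / t j, ?_, ?_, ?_, ?_, ?_, ?_, ?_⟩
  · intro v
    rw [← h.bad v]
    simp only [hXle, hYle]
  · intro δ hδ
    obtain ⟨δ', hδ', h1, h2⟩ : ∃ δ' : ℝ, 0 < δ' ∧ (∀ i, δ' ≤ δ * s i) ∧ (∀ j, δ' ≤ δ * t j) := by
      refine ⟨min (min (δ * s 0) (δ * s 1)) (min (δ * t 0) (δ * t 1)), ?_, ?_, ?_⟩
      · exact lt_min (lt_min (mul_pos hδ (hs 0)) (mul_pos hδ (hs 1)))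
          (lt_min (mul_pos hδ (ht 0)) (mul_pos hδ (ht 1)))
      · rw [Fin.forall_fin_two]
        exact ⟨(min_le_left _ _).trans (min_le_left _ _), (min_le_left _ _).trans (min_le_right _ _)⟩
      · rw [Fin.forall_fin_two]
        exact ⟨(min_le_right _ _).trans (min_le_left _ _), (min_le_right _ _).trans (min_le_right _ _)⟩
    obtain ⟨z, hz, h3, h4⟩ := h.small δ' hδ'
    refine ⟨z, hz, ?_, ?_⟩
    · intro i
      rw [hX', abs_div, abs_of_pos (hs i), div_lt_iff₀ (hs i)]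
      exact (h3 i).trans_le (h1 i)
    · intro j
      rw [hY', abs_div, abs_of_pos (ht j), div_lt_iff₀ (ht j)]
      exact (h4 j).trans_le (h2 j)
  · intro z h1 h2
    have hKz : ∀ i, |K i z| < ε := by
      rintro (i | j)
      · have h3 := h1 i
        rw [hX', abs_div, abs_of_pos (hs i), div_lt_iff₀ (hs i)] at h3
        have h4 := hs2 i
        show |X i z| < ε
        linarith
      · have h3 := h2 j
        rw [hY', abs_div, abs_of_pos (ht j), div_lt_iff₀ (ht j)] at h3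
        have h4 := ht2 j
        show |(-Y j) z| < ε
        rw [LinearMap.neg_apply, abs_neg]
        linarith
    have key := euclid hK z z0 hKz hKz0
    refine ⟨?_, ?_, ?_⟩
    · have h3 : X 1 z * X 0 z0 = X 0 z * X 1 z0 := key (Sum.inl 1) (Sum.inl 0)
      rw [hX', hX', div_eq_div_iff (hs 1).ne' (hs 0).ne']
      exact h3
    · have h3 : (-Y 0) z * X 0 z0 = X 0 z * (-Y 0) z0 := key (Sum.inr 0) (Sum.inl 0)
      rw [LinearMap.neg_apply, LinearMap.neg_apply] at h3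
      rw [hX', hY', ← neg_div, div_eq_div_iff (ht 0).ne' (hs 0).ne']
      show Y 0 z * X 0 z0 = -X 0 z * (-Y 0 z0)
      linarith
    · have h3 : (-Y 1) z * X 0 z0 = X 0 z * (-Y 1) z0 := key (Sum.inr 1) (Sum.inl 0)
      rw [LinearMap.neg_apply, LinearMap.neg_apply] at h3
      rw [hX', hY', ← neg_div, div_eq_div_iff (ht 1).ne' (hs 0).ne']
      show Y 1 z * X 0 z0 = -X 0 z * (-Y 1 z0)
      linarith
  · refine ⟨z0, ?_, ?_⟩
    · intro i; rw [hX']; exact div_self (hs i).ne'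
    · intro j; rw [hY']
      show Y j z0 / (-Y j z0) = -1
      rw [div_neg, div_self (hY0 j).ne]
  · intro k
    obtain ⟨⟨i, hi⟩, ⟨j, hj⟩⟩ := h.tight k
    exact ⟨⟨i, (hXeq _ _ _).mpr hi⟩, ⟨j, (hYeq _ _ _).mpr hj⟩⟩
  · intro i j k l m h1 h2 h3 h4 h5 h6
    rw [hXeq, hYeq] at h4 h5 h6
    exact h.two i j k l m h1 h2 h3 h4 h5 h6
  · obtain ⟨cX, cY, h1, h2, h3, h4⟩ := h.rel
    refine ⟨fun i => cX i * s i, fun j => cY j * t j, ?_, ?_, ?_, ?_⟩
    · intro i; exact mul_nonneg (h1 i) (hs i).le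
    · intro j; exact mul_nonneg (h2 j) (ht j).le
    · intro z
      rw [← h3 z]
      congr 1
      · refine Finset.sum_congr rfl fun i _ => ?_
        rw [hX']
        have := (hs i).ne'
        field_simp
      · refine Finset.sum_congr rfl fun j _ => ?_
        rw [hY']
        have := (ht j).ne'
        field_simp
    · have : ∑ i, cX i * s i * (x i / s i) + ∑ j, cY j * t j * (y j / t j)
          = ∑ i, cX i * x i + ∑ j, cY j * y j := by
        congr 1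
        · refine Finset.sum_congr rfl fun i _ => ?_
          have := (hs i).ne'
          field_simp
        · refine Finset.sum_congr rfl fun j _ => ?_
          have := (ht j).ne'
          field_simp
      rw [this]
      exact h4

namespace Three

variable {X Y : Fin 2 → (Fin 5 → ℤ) →ₗ[ℤ] ℝ} {x y : Fin 2 → ℝ}

theorem no_rec (h : Three X Y x y) (z : Fin 5 → ℤ) (h1 : ∀ i, X i z ≤ 0) (h2 : ∀ j, Y j z ≤ 0) :
    z = 0 := by
  have h0 := (h.bad 0).mpr ⟨0, pt_zero.symm⟩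
  simp only [map_zero] at h0
  obtain ⟨k, hk⟩ := (h.bad z).mp ⟨fun i => (h1 i).trans (h0.1 i), fun j => (h2 j).trans (h0.2 j)⟩
  obtain ⟨l, hl⟩ := (h.bad (z + z)).mp ⟨fun i => by
      rw [map_add]
      have h3 := h1 i
      have h4 := h0.1 i
      linarith, fun j => by
      rw [map_add]
      have h3 := h2 j
      have h4 := h0.2 j
      linarith⟩
  ext j
  have h1 := congrFun hl j
  rw [Pi.add_apply] at h1
  have h2 := pt_val l j
  have h3 := congrFun hk j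
  have h4 := pt_val k j
  rw [Pi.zero_apply]
  omega

/-- (C) no integer point has all slack sums positive. -/
theorem no_interior (h : Three X Y x y) (v : Fin 5 → ℤ)
    (hv : ∀ i j, X i v + Y j v < x i + y j) : False := by
  -- a = min slack in X, b = min slack in Y
  obtain ⟨a, ha1, i0, ha2⟩ : ∃ a : ℝ, (∀ i, a ≤ x i - X i v) ∧ ∃ i, a = x i - X i v := by
    rcases le_total (x 0 - X 0 v) (x 1 - X 1 v) with h1 | h1
    · exact ⟨x 0 - X 0 v, Fin.forall_fin_two.mpr ⟨le_rfl, h1⟩, 0, rfl⟩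
    · exact ⟨x 1 - X 1 v, Fin.forall_fin_two.mpr ⟨h1, le_rfl⟩, 1, rfl⟩
  obtain ⟨b, hb1, j0, hb2⟩ : ∃ b : ℝ, (∀ j, b ≤ y j - Y j v) ∧ ∃ j, b = y j - Y j v := by
    rcases le_total (y 0 - Y 0 v) (y 1 - Y 1 v) with h1 | h1
    · exact ⟨y 0 - Y 0 v, Fin.forall_fin_two.mpr ⟨le_rfl, h1⟩, 0, rfl⟩
    · exact ⟨y 1 - Y 1 v, Fin.forall_fin_two.mpr ⟨h1, le_rfl⟩, 1, rfl⟩
  have hab : 0 < a + b := by
    have := hv i0 j0
    rw [ha2, hb2]
    linarith
  -- small vector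
  obtain ⟨z, hz, hz1, hz2⟩ : ∃ z, z ≠ 0 ∧ (∀ i, |X i z| < min 2 ((a + b) / 3)) ∧
      (∀ j, |Y j z| < min 2 ((a + b) / 3)) := h.small _ (lt_min two_pos (by linarith))
  have hsy := h.sync z (fun i => (hz1 i).trans_le (min_le_left _ _))
    (fun j => (hz2 j).trans_le (min_le_left _ _))
  -- positive version
  obtain ⟨w, hw, hw0, hw1, hw2, hw3, hws⟩ : ∃ w : Fin 5 → ℤ, w ≠ 0 ∧ 0 < X 0 w ∧
      X 1 w = X 0 w ∧ Y 0 w = -X 0 w ∧ Y 1 w = -X 0 w ∧ X 0 w < (a + b) / 3 := by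
    have hXz := (hz1 0).trans_le (min_le_right _ _)
    rw [abs_lt] at hXz
    rcases lt_trichotomy (X 0 z) 0 with h1 | h1 | h1
    · refine ⟨-z, neg_ne_zero.mpr hz, ?_⟩
      simp only [map_neg]
      refine ⟨by linarith, by linarith, by linarith, by linarith, by linarith⟩
    · exfalso
      apply hz
      apply h.no_rec
      · rw [Fin.forall_fin_two]; constructor <;> linarith
      · rw [Fin.forall_fin_two]; constructor <;> linarith
    · exact ⟨z, hz, h1, hsy.1, hsy.2.1, hsy.2.2, hXz.2⟩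
  set τ := X 0 w with hτ
  have hXw : ∀ i, X i w = τ := by rw [Fin.forall_fin_two]; exact ⟨rfl, hw1⟩
  have hYw : ∀ j, Y j w = -τ := by rw [Fin.forall_fin_two]; exact ⟨hw2, hw3⟩
  set n : ℤ := ⌈-b / τ⌉ with hn
  have hn1 : -b ≤ n * τ := by
    have := Int.le_ceil (-b / τ)
    rwa [div_le_iff₀ hw0] at this
  have hn2 : n * τ < -b + τ := by
    have := Int.ceil_lt_add_one (-b / τ)
    rw [← hn] at this
    have h1 : (n : ℝ) * τ < (-b / τ + 1) * τ := mul_lt_mul_of_pos_right this hw0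
    have h2 : (-b / τ + 1) * τ = -b + τ := by field_simp
    linarith
  have hmem : ∀ m : ℤ, n ≤ m → m ≤ n + 2 → ∃ k, v + m • w = pt k := by
    intro m hm1 hm2
    rw [← h.bad]
    have hm1' : (n : ℝ) ≤ m := by exact_mod_cast hm1
    have hm2' : (m : ℝ) ≤ n + 2 := by exact_mod_cast hm2
    have h1 : (n : ℝ) * τ ≤ m * τ := mul_le_mul_of_nonneg_right hm1' hw0.le
    have h2 : (m : ℝ) * τ ≤ (n + 2) * τ := mul_le_mul_of_nonneg_right hm2' hw0.le
    constructor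
    · intro i
      rw [map_add, map_smul, hXw, zsmul_eq_mul]
      have := ha1 i
      linarith
    · intro j
      rw [map_add, map_smul, hYw, zsmul_eq_mul]
      have := hb1 j
      linarith
  obtain ⟨k, hk⟩ := hmem n le_rfl (by omega)
  obtain ⟨l, hl⟩ := hmem (n + 1) (by omega) (by omega)
  obtain ⟨m, hm⟩ := hmem (n + 2) (by omega) le_rfl
  apply hw
  ext j
  have h1 := congrFun hk j
  have h2 := congrFun hl j
  have h3 := congrFun hm j
  have h4 := pt_val k j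
  have h5 := pt_val l j
  have h6 := pt_val m j
  simp only [Pi.add_apply, Pi.smul_apply, smul_eq_mul, add_mul, one_mul] at h1 h2 h3
  rw [Pi.zero_apply]
  omega

/-- the constants of the relation -/
theorem rel' (h : Three X Y x y) : ∃ α β : ℝ, 0 ≤ α ∧ α ≤ 1 ∧ 0 ≤ β ∧ β ≤ 1 ∧
    ∀ z, X 0 z + Y 0 z = α * (X 0 z - X 1 z) + β * (Y 0 z - Y 1 z) := by
  obtain ⟨cX, cY, h1, h2, h3, h4⟩ := h.rel
  obtain ⟨z0, hz1, hz2⟩ := h.unit
  simp only [Fin.sum_univ_two] at h3 h4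
  have h5 := h3 z0
  rw [hz1, hz1, hz2, hz2] at h5
  have hX0 := h1 0
  have hX1 := h1 1
  have hY0 := h2 0
  have hY1 := h2 1
  set C := cX 0 + cX 1 with hC
  have hC2 : cY 0 + cY 1 = C := by linarith
  have hCpos : 0 < C := by
    rcases (add_nonneg hX0 hX1).lt_or_eq with h6 | h6
    · exact h6
    · exfalso
      have e1 : cX 0 = 0 := by linarith
      have e2 : cX 1 = 0 := by linarith
      have e3 : cY 0 = 0 := by linarith
      have e4 : cY 1 = 0 := by linarith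
      rw [e1, e2, e3, e4] at h4
      simp at h4
  refine ⟨cX 1 / C, cY 1 / C, by positivity, ?_, by positivity, ?_, ?_⟩
  · rw [div_le_one hCpos]; linarith
  · rw [div_le_one hCpos]; linarith
  · intro z
    have h6 := h3 z
    have e1 : cX 0 = C - cX 1 := by linarith
    have e2 : cY 0 = C - cY 1 := by linarith
    rw [e1, e2] at h6
    field_simp
    linarith

/-- The planar image. -/
noncomputable def phi (X Y : Fin 2 → (Fin 5 → ℤ) →ₗ[ℤ] ℝ) : (Fin 5 → ℤ) →ₗ[ℤ] (Fin 2 → ℝ) :=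
  LinearMap.pi ![X 0 - X 1, Y 0 - Y 1]

theorem phi_zero (X Y : Fin 2 → (Fin 5 → ℤ) →ₗ[ℤ] ℝ) (z : Fin 5 → ℤ) :
    phi X Y z 0 = X 0 z - X 1 z := rfl

theorem phi_one (X Y : Fin 2 → (Fin 5 → ℤ) →ₗ[ℤ] ℝ) (z : Fin 5 → ℤ) :
    phi X Y z 1 = Y 0 z - Y 1 z := rfl

theorem discrete (h : Three X Y x y) (z : Fin 5 → ℤ) (hz : ‖phi X Y z‖ < 1 / 3) :
    phi X Y z = 0 := by
  rw [pi_norm_lt_iff (by norm_num)] at hz
  have hU := hz 0
  have hW := hz 1
  rw [phi_zero, Real.norm_eq_abs, abs_lt] at hU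
  rw [phi_one, Real.norm_eq_abs, abs_lt] at hW
  obtain ⟨α, β, ha1, ha2, hb1, hb2, hrel⟩ := h.rel'
  obtain ⟨z0, hz1, hz2⟩ := h.unit
  set n : ℤ := ⌊X 0 z⌋ with hn
  have hf1 : (n : ℝ) ≤ X 0 z := Int.floor_le _
  have hf2 : X 0 z < n + 1 := Int.lt_floor_add_one _
  have hXr : ∀ i, X i (z - n • z0) = X i z - n := by
    intro i
    rw [map_sub, map_smul, hz1, zsmul_eq_mul, mul_one]
  have hYr : ∀ j, Y j (z - n • z0) = Y j z + n := by
    intro j
    rw [map_sub, map_smul, hz2, zsmul_eq_mul]; ring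
  have hrz := hrel z
  have hb : |α * (X 0 z - X 1 z) + β * (Y 0 z - Y 1 z)| < 2 / 3 := by
    have e1 : |α * (X 0 z - X 1 z)| < 1 / 3 := by
      rw [abs_mul, abs_of_nonneg ha1]
      have : |X 0 z - X 1 z| < 1 / 3 := abs_lt.mpr hU
      have h0 := abs_nonneg (X 0 z - X 1 z)
      nlinarith
    have e2 : |β * (Y 0 z - Y 1 z)| < 1 / 3 := by
      rw [abs_mul, abs_of_nonneg hb1]
      have : |Y 0 z - Y 1 z| < 1 / 3 := abs_lt.mpr hW
      have h0 := abs_nonneg (Y 0 z - Y 1 z)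
      nlinarith
    have := abs_add_le (α * (X 0 z - X 1 z)) (β * (Y 0 z - Y 1 z))
    linarith
  rw [← hrz, abs_lt] at hb
  have hsy := h.sync (z - n • z0) (by
    rw [Fin.forall_fin_two, hXr, hXr, abs_lt, abs_lt]
    refine ⟨⟨?_, ?_⟩, ⟨?_, ?_⟩⟩ <;> linarith) (by
    rw [Fin.forall_fin_two, hYr, hYr, abs_lt, abs_lt]
    refine ⟨⟨?_, ?_⟩, ⟨?_, ?_⟩⟩ <;> linarith)
  rw [hXr, hXr, hYr, hYr] at hsy
  ext i
  fin_cases i
  · show phi X Y z 0 = 0
    rw [phi_zero]; linarith [hsy.1]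
  · show phi X Y z 1 = 0
    rw [phi_one]; linarith [hsy.2.1, hsy.2.2]

end Three

end Pool.Agent.Work.MP_83f734_co
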