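import Mathlib

set_option autoImplicit false

namespace Pool.Agent.Work.MP_83f734_co

theorem three_others : ∀ k l b : Fin 6, k ≠ l → k ≠ b → l ≠ b →
    ∃ m1 m2 m3 : Fin 6, m1 ≠ m2 ∧ m1 ≠ m3 ∧ m2 ≠ m3 ∧ (m1 ≠ k ∧ m1 ≠ l ∧ m1 ≠ b) ∧
      (m2 ≠ k ∧ m2 ≠ l ∧ m2 ≠ b) ∧ (m3 ≠ k ∧ m3 ≠ l ∧ m3 ≠ b) := by
  decide +kernel

theorem three_others' : ∀ k l : Fin 6, k ≠ l →
    ∃ m1 m2 m3 : Fin 6, m1 ≠ m2 ∧ m1 ≠ m3 ∧ m2 ≠ m3 ∧ (m1 ≠ k ∧ m1 ≠ l) ∧
      (m2 ≠ k ∧ m2 ≠ l) ∧ (m3 ≠ k ∧ m3 ≠ l) := by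
  decide +kernel

theorem last_edge_aux : ∀ e1 e2 e3 e e' : Fin 2 × Fin 2, (e1 ≠ e2 ∧ e1 ≠ e3 ∧ e2 ≠ e3 ∧
    e ≠ e1 ∧ e ≠ e2 ∧ e ≠ e3 ∧ e' ≠ e1 ∧ e' ≠ e2 ∧ e' ≠ e3) → e = e' := by
  decide +kernel

theorem last_edge : ∀ e1 e2 e3 e e' : Fin 2 × Fin 2, e1 ≠ e2 → e1 ≠ e3 → e2 ≠ e3 →
    e ≠ e1 → e ≠ e2 → e ≠ e3 → e' ≠ e1 → e' ≠ e2 → e' ≠ e3 → e = e' :=
  fun e1 e2 e3 e e' h1 h2 h3 h4 h5 h6 h7 h8 h9 =>
    last_edge_aux e1 e2 e3 e e' ⟨h1, h2, h3, h4, h5, h6, h7, h8, h9⟩

/-- combinatorial contradiction from three points pairwise sharing an edge -/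
theorem no_triangle (Z : Fin 2 × Fin 2 → Fin 6 → Prop) (htight : ∀ k, ∃ e, Z e k)
    (htwo : ∀ e k l m, k ≠ l → k ≠ m → l ≠ m → Z e k → Z e l → Z e m → False)
    {k l b : Fin 6} (hkl : k ≠ l) (hkb : k ≠ b) (hlb : l ≠ b)
    (h1 : ∃ e, Z e k ∧ Z e l) (h2 : ∃ e, Z e k ∧ Z e b) (h3 : ∃ e, Z e l ∧ Z e b) : False := by
  obtain ⟨e1, h1k, h1l⟩ := h1
  obtain ⟨e2, h2k, h2b⟩ := h2
  obtain ⟨e3, h3l, h3b⟩ := h3
  have h12 : e1 ≠ e2 := by
    rintro rfl; exact htwo _ _ _ _ hkl hkb hlb h1k h1l h2b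
  have h13 : e1 ≠ e3 := by
    rintro rfl; exact htwo _ _ _ _ hkl hkb hlb h1k h1l h3b
  have h23 : e2 ≠ e3 := by
    rintro rfl; exact htwo _ _ _ _ hkl hkb hlb h2k h3l h2b
  obtain ⟨m1, m2, m3, n12, n13, n23, ⟨a1, a2, a3⟩, ⟨b1, b2, b3⟩, ⟨c1, c2, c3⟩⟩ :=
    three_others k l b hkl hkb hlb
  have hne : ∀ m e, m ≠ k → m ≠ l → m ≠ b → Z e m → e ≠ e1 ∧ e ≠ e2 ∧ e ≠ e3 := by
    intro m e q1 q2 q3 hm
    refine ⟨?_, ?_, ?_⟩
    · rintro rfl; exact htwo _ _ _ _ hkl q1.symm q2.symm h1k h1l hm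
    · rintro rfl; exact htwo _ _ _ _ hkb q1.symm q3.symm h2k h2b hm
    · rintro rfl; exact htwo _ _ _ _ hlb q2.symm q3.symm h3l h3b hm
  obtain ⟨f1, hf1⟩ := htight m1
  obtain ⟨f2, hf2⟩ := htight m2
  obtain ⟨f3, hf3⟩ := htight m3
  obtain ⟨g11, g12, g13⟩ := hne m1 f1 a1 a2 a3 hf1
  obtain ⟨g21, g22, g23⟩ := hne m2 f2 b1 b2 b3 hf2
  obtain ⟨g31, g32, g33⟩ := hne m3 f3 c1 c2 c3 hf3
  have e12 := last_edge e1 e2 e3 f1 f2 h12 h13 h23 g11 g12 g13 g21 g22 g23
  have e13 := last_edge e1 e2 e3 f1 f3 h12 h13 h23 g11 g12 g13 g31 g32 g33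
  rw [← e12] at hf2
  rw [← e13] at hf3
  exact htwo _ _ _ _ n12 n13 n23 hf1 hf2 hf3

/-- middle of three: contradiction -/
theorem no_middle (G : Fin 2 × Fin 2 → Fin 6 → ℝ) (hnn : ∀ e k, 0 ≤ G e k)
    (htight : ∀ k, ∃ e, G e k = 0)
    (htwo : ∀ e k l m, k ≠ l → k ≠ m → l ≠ m → G e k = 0 → G e l = 0 → G e m = 0 → False)
    {k l m : Fin 6} (hkl : k ≠ l) (hkm : k ≠ m) (hlm : l ≠ m) {u v : ℝ} (hu : 0 < u) (hv : 0 < v)
    (hmid : ∀ e, (u + v) * G e l = u * G e k + v * G e m) : False := by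
  obtain ⟨e, he⟩ := htight l
  have h1 := hmid e
  rw [he, mul_zero] at h1
  have h2 := mul_nonneg hu.le (hnn e k)
  have h3 := mul_nonneg hv.le (hnn e m)
  have h4 : u * G e k = 0 := by linarith
  have h5 : v * G e m = 0 := by linarith
  have h6 : G e k = 0 := by
    rcases mul_eq_zero.mp h4 with h | h
    · exact absurd h hu.ne'
    · exact h
  have h7 : G e m = 0 := by
    rcases mul_eq_zero.mp h5 with h | h
    · exact absurd h hv.ne'
    · exact h
  exact htwo e k l m hkl hkm hlm h6 he h7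

/-- three points on a line (integer parameters): contradiction -/
theorem no_collinear (G : Fin 2 × Fin 2 → Fin 6 → ℝ) (hnn : ∀ e k, 0 ≤ G e k)
    (htight : ∀ k, ∃ e, G e k = 0)
    (htwo : ∀ e k l m, k ≠ l → k ≠ m → l ≠ m → G e k = 0 → G e l = 0 → G e m = 0 → False)
    {k l m : Fin 6} (hkl : k ≠ l) (hkm : k ≠ m) (hlm : l ≠ m) (c d : Fin 2 × Fin 2 → ℝ)
    (x : Fin 6 → ℤ) (h1 : x k ≠ x l) (h2 : x k ≠ x m) (h3 : x l ≠ x m)
    (hk : ∀ e, G e k = c e + d e * x k) (hl : ∀ e, G e l = c e + d e * x l)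
    (hm : ∀ e, G e m = c e + d e * x m) : False := by
  -- general sorted statement
  have main : ∀ k l m : Fin 6, k ≠ l → k ≠ m → l ≠ m → x k < x l → x l < x m →
      (∀ e, G e k = c e + d e * x k) → (∀ e, G e l = c e + d e * x l) →
      (∀ e, G e m = c e + d e * x m) → False := by
    intro k l m hkl hkm hlm h1 h2 hk hl hm
    have h1' : (x k : ℝ) < x l := by exact_mod_cast h1
    have h2' : (x l : ℝ) < x m := by exact_mod_cast h2
    refine no_middle G hnn htight htwo hkl hkm hlm (u := (x m : ℝ) - x l) (v := (x l : ℝ) - x k)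
      (by linarith) (by linarith) ?_
    intro e
    rw [hk, hl, hm]
    ring
  rcases lt_or_gt_of_ne h1 with a1 | a1 <;> rcases lt_or_gt_of_ne h2 with a2 | a2 <;>
    rcases lt_or_gt_of_ne h3 with a3 | a3
  · exact main k l m hkl hkm hlm a1 a3 hk hl hm
  · exact main k m l hkm hkl hlm.symm a2 a3 hk hm hl
  · omega
  · exact main m k l hkm.symm hlm.symm hkl a2 a1 hm hk hl
  · exact main l k m hkl.symm hlm hkm a1 a2 hl hk hm
  · omega
  · exact main l m k hlm hkl.symm hkm.symm a3 a2 hl hm hk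
  · exact main m l k hlm.symm hkm.symm hkl.symm a3 a1 hm hl hk

/-- Six lattice points in the plane and four affine functionals. -/
structure Planar (s p q : Fin 2 × Fin 2 → ℝ) (P Q : Fin 6 → ℤ) : Prop where
  inj : ∀ k l, P k = P l → Q k = Q l → k = l
  nonneg : ∀ e k, 0 ≤ s e + p e * P k + q e * Q k
  tight : ∀ k, ∃ e, s e + p e * P k + q e * Q k = 0
  two : ∀ e k l m, k ≠ l → k ≠ m → l ≠ m → s e + p e * P k + q e * Q k = 0 →
    s e + p e * P l + q e * Q l = 0 → s e + p e * P m + q e * Q m = 0 → False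
  empty : ∀ a b : ℤ, ∃ e, s e + p e * a + q e * b ≤ 0

variable {s p q : Fin 2 × Fin 2 → ℝ} {P Q : Fin 6 → ℤ}

/-- points with an integral midpoint share an edge -/
theorem Planar.share (h : Planar s p q P Q) (k l : Fin 6) (a b : ℤ) (ha : 2 * a = P k + P l)
    (hb : 2 * b = Q k + Q l) : ∃ e, s e + p e * P k + q e * Q k = 0 ∧
      s e + p e * P l + q e * Q l = 0 := by
  obtain ⟨e, he⟩ := h.empty a b
  have h1 := h.nonneg e k
  have h2 := h.nonneg e l
  have ha' : 2 * (a : ℝ) = P k + P l := by exact_mod_cast ha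
  have hb' : 2 * (b : ℝ) = Q k + Q l := by exact_mod_cast hb
  have h3 : 2 * (s e + p e * a + q e * b) =
      (s e + p e * P k + q e * Q k) + (s e + p e * P l + q e * Q l) := by
    have : 2 * (s e + p e * a + q e * b) = 2 * s e + p e * (2 * a) + q e * (2 * b) := by ring
    rw [this, ha', hb']; ring
  exact ⟨e, by linarith, by linarith⟩

theorem Planar.normal (h : Planar s p q P Q) {k l : Fin 6} (hkl : k ≠ l) {N : ℤ} (hN : 2 ≤ N)
    (hPk : P k = 0) (hQk : Q k = 0) (hPl : P l = N) (hQl : Q l = 0)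
    {e : Fin 2 × Fin 2} (hs : s e = 0) (hp : p e = 0) (hq : 0 < q e) : False := by
  -- all other points have positive height
  have hpos : ∀ m, m ≠ k → m ≠ l → 1 ≤ Q m := by
    intro m h1 h2
    by_contra hcon
    have h3 : Q m ≤ 0 := by omega
    have h4 := h.nonneg e m
    rw [hs, hp, zero_add, zero_mul, zero_add] at h4
    have h5 : (Q m : ℝ) ≤ 0 := by exact_mod_cast h3
    have h6 : q e * (Q m : ℝ) = 0 := by nlinarith
    apply h.two e k l m hkl h1.symm h2.symm
    · rw [hs, hp, hQk]; simp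
    · rw [hs, hp, hQl]; simp
    · rw [hs, hp, h6]; simp
  by_cases hA : ∃ m, m ≠ k ∧ m ≠ l ∧ 2 ≤ Q m
  · obtain ⟨m, hmk, hml, hy⟩ := hA
    set X := P m with hX
    set y := Q m with hY
    by_cases hpar : N = 2 ∧ y = 2 ∧ ∃ c, X = 2 * c
    · -- parity triple
      obtain ⟨hN2, hy2, c, hc⟩ := hpar
      refine no_triangle (fun e k => s e + p e * P k + q e * Q k = 0) h.tight h.two hkl hmk.symm
        hml.symm ?_ ?_ ?_
      · exact h.share k l 1 0 (by omega) (by omega)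
      · exact h.share k m c 1 (by omega) (by omega)
      · exact h.share l m (c + 1) 1 (by omega) (by omega)
    · -- interior point at height one
      obtain ⟨a, ha1, ha2⟩ : ∃ a : ℤ, 0 < a * y - X ∧ a * y - X < N * (y - 1) := by
        refine ⟨X / y + 1, ?_, ?_⟩
        · have h1 := Int.emod_add_mul_ediv X y
          have h2 := Int.emod_lt_of_pos X (show 0 < y by omega)
          nlinarith
        · have h1 := Int.emod_add_mul_ediv X y
          have h2 := Int.emod_nonneg X (show y ≠ 0 by omega)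
          have h3 : (X / y + 1) * y - X = y - X % y := by linarith
          rw [h3]
          by_contra hcon
          have h4 : N * (y - 1) ≤ y - X % y := by omega
          have h5 : 2 * (y - 1) ≤ N * (y - 1) := mul_le_mul_of_nonneg_right hN (by omega)
          have h6 : y = 2 := by omega
          have h7 : N = 2 := by
            rw [h6] at h4; omega
          have h8 : X % y = 0 := by
            rw [h6, h7] at h4; omega
          apply hpar
          refine ⟨h7, h6, X / 2, ?_⟩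
          rw [h6] at h8
          omega
      obtain ⟨e', he'⟩ := h.empty a 1
      have hk' := h.nonneg e' k
      have hl' := h.nonneg e' l
      have hm' := h.nonneg e' m
      rw [hPk, hQk] at hk'
      rw [hPl, hQl] at hl'
      rw [← hX, ← hY] at hm'
      have hc1 : (0 : ℝ) < a * y - X := by exact_mod_cast ha1
      have hc0 : (0 : ℝ) < N * (y - 1) - (a * y - X) := by
        have : (0 : ℤ) < N * (y - 1) - (a * y - X) := by linarith
        exact_mod_cast this
      have hNpos : (0 : ℝ) < N := by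
        have : (0 : ℤ) < N := by omega
        exact_mod_cast this
      have hypos : (0 : ℝ) < y := by
        have : (0 : ℤ) < y := by omega
        exact_mod_cast this
      have key : (N * y : ℝ) * (s e' + p e' * a + q e' * ((1 : ℤ) : ℝ)) =
          (N * (y - 1) - (a * y - X)) * (s e' + p e' * ((0 : ℤ) : ℝ) + q e' * ((0 : ℤ) : ℝ)) +
          (a * y - X) * (s e' + p e' * (N : ℝ) + q e' * ((0 : ℤ) : ℝ)) +
          N * (s e' + p e' * (X : ℝ) + q e' * (y : ℝ)) := by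
        push_cast; ring
      have hle : (N * y : ℝ) * (s e' + p e' * a + q e' * ((1 : ℤ) : ℝ)) ≤ 0 :=
        mul_nonpos_of_nonneg_of_nonpos (by positivity) he'
      have t1 := mul_nonneg hc0.le hk'
      have t2 := mul_nonneg hc1.le hl'
      have t3 := mul_nonneg hNpos.le hm'
      have z1 : (N * (y - 1) - (a * y - X) : ℝ) *
          (s e' + p e' * ((0 : ℤ) : ℝ) + q e' * ((0 : ℤ) : ℝ)) = 0 := by linarith
      have z2 : (a * y - X : ℝ) * (s e' + p e' * (N : ℝ) + q e' * ((0 : ℤ) : ℝ)) = 0 := by linarith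
      have z3 : (N : ℝ) * (s e' + p e' * (X : ℝ) + q e' * (y : ℝ)) = 0 := by linarith
      have w1 := (mul_eq_zero.mp z1).resolve_left hc0.ne'
      have w2 := (mul_eq_zero.mp z2).resolve_left hc1.ne'
      have w3 := (mul_eq_zero.mp z3).resolve_left hNpos.ne'
      apply h.two e' k l m hkl hmk.symm hml.symm
      · rw [hPk, hQk]; exact w1
      · rw [hPl, hQl]; exact w2
      · rw [← hX, ← hY]; exact w3
  · -- all others at height exactly one
    have hone : ∀ m, m ≠ k → m ≠ l → Q m = 1 := by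
      intro m h1 h2
      have h3 := hpos m h1 h2
      by_contra hne
      exact hA ⟨m, h1, h2, by omega⟩
    obtain ⟨m1, m2, m3, n12, n13, n23, ⟨a1, a2⟩, ⟨b1, b2⟩, ⟨c1, c2⟩⟩ := three_others' k l hkl
    have q1 := hone m1 a1 a2
    have q2 := hone m2 b1 b2
    have q3 := hone m3 c1 c2
    refine no_collinear (fun e k => s e + p e * P k + q e * Q k) h.nonneg h.tight h.two
      n12 n13 n23 (fun e => s e + q e) p P ?_ ?_ ?_ ?_ ?_ ?_
    · intro hh; exact n12 (h.inj _ _ hh (q1.trans q2.symm))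
    · intro hh; exact n13 (h.inj _ _ hh (q1.trans q3.symm))
    · intro hh; exact n23 (h.inj _ _ hh (q2.trans q3.symm))
    · intro e; show s e + p e * P m1 + q e * Q m1 = _; rw [q1]; push_cast; ring
    · intro e; show s e + p e * P m2 + q e * Q m2 = _; rw [q2]; push_cast; ring
    · intro e; show s e + p e * P m3 + q e * Q m3 = _; rw [q3]; push_cast; ring

theorem Planar.false (h : Planar s p q P Q) : False := by
  -- parity pair
  obtain ⟨k, l, hkl, hPpar, hQpar⟩ : ∃ k l, k ≠ l ∧ P k % 2 = P l % 2 ∧ Q k % 2 = Q l % 2 := by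
    obtain ⟨k, l, hkl, he⟩ := Fintype.exists_ne_map_eq_of_card_lt
      (fun k : Fin 6 => ((P k : ZMod 2), (Q k : ZMod 2))) (by
        simp only [Fintype.card_prod, ZMod.card, Fintype.card_fin]; norm_num)
    refine ⟨k, l, hkl, ?_, ?_⟩
    · have := congrArg Prod.fst he
      exact (ZMod.intCast_eq_intCast_iff' _ _ 2).mp this
    · have := congrArg Prod.snd he
      exact (ZMod.intCast_eq_intCast_iff' _ _ 2).mp this
  obtain ⟨d1, hd1⟩ : ∃ d1, P l - P k = 2 * d1 := ⟨(P l - P k) / 2, by omega⟩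
  obtain ⟨d2, hd2⟩ : ∃ d2, Q l - Q k = 2 * d2 := ⟨(Q l - Q k) / 2, by omega⟩
  obtain ⟨e, he1, he2⟩ := h.share k l (P k + d1) (Q k + d2) (by omega) (by omega)
  have hd0 : ¬ (d1 = 0 ∧ d2 = 0) := by
    rintro ⟨h1, h2⟩
    apply hkl
    apply h.inj <;> omega
  -- primitive vector
  obtain ⟨g, u1, u2, hg, hgu1, hgu2, hcop⟩ : ∃ g u1 u2 : ℤ, 0 < g ∧ d1 = g * u1 ∧ d2 = g * u2 ∧
      IsCoprime u1 u2 := by
    have hgpos : 0 < Int.gcd d1 d2 := by
      rw [Int.gcd_pos_iff]
      by_contra hcon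
      push Not at hcon
      exact hd0 hcon
    refine ⟨Int.gcd d1 d2, d1 / Int.gcd d1 d2, d2 / Int.gcd d1 d2, by exact_mod_cast hgpos,
      ?_, ?_, ?_⟩
    · exact (Int.mul_ediv_cancel' (Int.gcd_dvd_left ..)).symm
    · exact (Int.mul_ediv_cancel' (Int.gcd_dvd_right ..)).symm
    · rw [Int.isCoprime_iff_gcd_eq_one]
      exact Int.gcd_ediv_gcd_ediv_gcd hgpos
  obtain ⟨c1, c2, hc⟩ := hcop
  -- w = (-c2, c1), det (u, w) = u1 c1 + u2 c2 = 1
  -- linear part of e in direction w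
  have hu : p e * u1 + q e * u2 = 0 := by
    have h1 : (P l : ℝ) = P k + 2 * (g * u1) := by
      have : P l = P k + 2 * (g * u1) := by rw [← hgu1]; omega
      exact_mod_cast this
    have h2 : (Q l : ℝ) = Q k + 2 * (g * u2) := by
      have : Q l = Q k + 2 * (g * u2) := by rw [← hgu2]; omega
      exact_mod_cast this
    rw [h1, h2] at he2
    have h3 : (2 * g : ℝ) * (p e * u1 + q e * u2) = 0 := by linarith
    have h4 : (2 * g : ℝ) ≠ 0 := by
      have : (0 : ℝ) < g := by exact_mod_cast hg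
      positivity
    exact (mul_eq_zero.mp h3).resolve_left h4
  obtain ⟨σ, w1, w2, hσ, hdet, hw⟩ : ∃ σ w1 w2 : ℤ, (σ = 1 ∨ σ = -1) ∧
      u1 * w2 - u2 * w1 = σ ∧ 0 < p e * w1 + q e * w2 := by
    have hne : p e * ((-c2 : ℤ) : ℝ) + q e * ((c1 : ℤ) : ℝ) ≠ 0 := by
      intro h0
      -- then p e = q e = 0
      have hc' : (c1 : ℝ) * u1 + c2 * u2 = 1 := by exact_mod_cast hc
      push_cast at h0
      have hq0 : q e = 0 := by
        have : q e = q e * (c1 * u1 + c2 * u2) := by rw [hc', mul_one]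
        rw [this]
        have e1 : q e * ((c1 : ℝ) * u1 + c2 * u2) =
            u1 * (p e * -(c2 : ℝ) + q e * c1) + c2 * (p e * u1 + q e * u2) := by ring
        rw [e1, h0, hu]; ring
      have hp0 : p e = 0 := by
        have : p e = p e * (c1 * u1 + c2 * u2) := by rw [hc', mul_one]
        rw [this]
        have e1 : p e * ((c1 : ℝ) * u1 + c2 * u2) =
            c1 * (p e * u1 + q e * u2) - u2 * (p e * -(c2 : ℝ) + q e * c1) := by ring
        rw [e1, h0, hu]; ring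
      obtain ⟨m1, m2, m3, n12, n13, n23, _, _, _⟩ := three_others' k l hkl
      have hs0 : s e = 0 := by
        rw [hp0, hq0] at he1; linarith
      apply h.two e m1 m2 m3 n12 n13 n23 <;> rw [hs0, hp0, hq0] <;> ring
    rcases lt_or_gt_of_ne hne with h1 | h1
    · refine ⟨-1, c2, -c1, Or.inr rfl, by linarith, ?_⟩
      push_cast at h1 ⊢
      linarith
    · exact ⟨1, -c2, c1, Or.inl rfl, by linarith, h1⟩
  -- new coordinates: v = P_k + g' u + h w
  have hσσ : σ * σ = 1 := by rcases hσ with h | h <;> rw [h] <;> norm_num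
  let P' : Fin 6 → ℤ := fun m => σ * ((P m - P k) * w2 - (Q m - Q k) * w1)
  let Q' : Fin 6 → ℤ := fun m => σ * (u1 * (Q m - Q k) - u2 * (P m - P k))
  have hPm : ∀ m, P m = P k + P' m * u1 + Q' m * w1 := by
    intro m
    have : P' m * u1 + Q' m * w1 = σ * (u1 * w2 - u2 * w1) * (P m - P k) := by
      simp only [P', Q']; ring
    rw [hdet, hσσ, one_mul] at this
    linarith
  have hQm : ∀ m, Q m = Q k + P' m * u2 + Q' m * w2 := by
    intro m
    have : P' m * u2 + Q' m * w2 = σ * (u1 * w2 - u2 * w1) * (Q m - Q k) := by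
      simp only [P', Q']; ring
    rw [hdet, hσσ, one_mul] at this
    linarith
  let s' : Fin 2 × Fin 2 → ℝ := fun e => s e + p e * P k + q e * Q k
  let p' : Fin 2 × Fin 2 → ℝ := fun e => p e * u1 + q e * u2
  let q' : Fin 2 × Fin 2 → ℝ := fun e => p e * w1 + q e * w2
  have hval : ∀ e m, s' e + p' e * P' m + q' e * Q' m = s e + p e * P m + q e * Q m := by
    intro e m
    have h1 : (P m : ℝ) = P k + P' m * u1 + Q' m * w1 := by exact_mod_cast hPm m
    have h2 : (Q m : ℝ) = Q k + P' m * u2 + Q' m * w2 := by exact_mod_cast hQm m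
    rw [h1, h2]
    simp only [s', p', q']
    ring
  have h' : Planar s' p' q' P' Q' := by
    refine ⟨?_, ?_, ?_, ?_, ?_⟩
    · intro a b h1 h2
      apply h.inj
      · rw [hPm a, hPm b, h1, h2]
      · rw [hQm a, hQm b, h1, h2]
    · intro e m; rw [hval]; exact h.nonneg e m
    · intro m
      obtain ⟨e, he⟩ := h.tight m
      exact ⟨e, by rw [hval]; exact he⟩
    · intro e a b c h1 h2 h3
      rw [hval, hval, hval]
      exact h.two e a b c h1 h2 h3
    · intro a b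
      obtain ⟨e, he⟩ := h.empty (P k + a * u1 + b * w1) (Q k + a * u2 + b * w2)
      refine ⟨e, ?_⟩
      push_cast at he
      simp only [s', p', q']
      linarith
  refine h'.normal hkl (N := 2 * g) (by omega) ?_ ?_ ?_ ?_ (e := e) ?_ ?_ ?_
  · simp only [P']; ring
  · simp only [Q']; ring
  · have h1 : P l - P k = 2 * (g * u1) := by rw [← hgu1]; exact hd1
    have h2 : Q l - Q k = 2 * (g * u2) := by rw [← hgu2]; exact hd2
    simp only [P']
    rw [h1, h2]
    have : σ * (2 * (g * u1) * w2 - 2 * (g * u2) * w1) = 2 * g * (σ * (u1 * w2 - u2 * w1)) := by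
      ring
    rw [this, hdet, hσσ, mul_one]
  · have h1 : P l - P k = 2 * (g * u1) := by rw [← hgu1]; exact hd1
    have h2 : Q l - Q k = 2 * (g * u2) := by rw [← hgu2]; exact hd2
    simp only [Q']
    rw [h1, h2]
    ring
  · exact he1
  · exact hu
  · exact hw

end Pool.Agent.Work.MP_83f734_co
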