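import Mathlib
import Pool.Agent.Work.MP_83f734_co.LowerD
import Pool.Agent.Work.MP_83f734_co.Planar

set_option autoImplicit false

namespace Pool.Agent.Work.MP_83f734_co

open Module

namespace Three

variable {X Y : Fin 2 → (Fin 5 → ℤ) →ₗ[ℤ] ℝ} {x y : Fin 2 → ℝ}

/-- all slack sums are determined by `phi` -/
theorem slack (h : Three X Y x y) : ∃ p q : Fin 2 × Fin 2 → ℝ, ∀ e v,
    (x e.1 - X e.1 v) + (y e.2 - Y e.2 v) =
      (x e.1 + y e.2) + p e * phi X Y v 0 + q e * phi X Y v 1 := by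
  obtain ⟨α, β, -, -, -, -, hrel⟩ := h.rel'
  refine ⟨fun e => -α + (if e.1 = 0 then 0 else 1), fun e => -β + (if e.2 = 0 then 0 else 1), ?_⟩
  rintro ⟨i, j⟩ v
  have h1 := hrel v
  rw [phi_zero, phi_one]
  fin_cases i <;> fin_cases j <;> simp <;> linarith

theorem phi_pt_inj (h : Three X Y x y) (k l : Fin 6) (he : phi X Y (pt k) = phi X Y (pt l)) :
    k = l := by
  obtain ⟨α, β, -, -, -, -, hrel⟩ := h.rel'
  have h0 := congrFun he 0
  have h1 := congrFun he 1
  rw [phi_zero, phi_zero] at h0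
  rw [phi_one, phi_one] at h1
  have hk := hrel (pt k)
  have hl := hrel (pt l)
  rw [h0, h1, ← hl] at hk
  obtain ⟨⟨i, hi⟩, ⟨j, hj⟩⟩ := h.tight l
  have hmem := (h.bad (pt k)).mpr ⟨k, rfl⟩
  -- theta = X 0 (pt k) - X 0 (pt l)
  have hX : ∀ i, X i (pt k) - X i (pt l) = X 0 (pt k) - X 0 (pt l) := by
    rw [Fin.forall_fin_two]; exact ⟨rfl, by linarith⟩
  have hY : ∀ j, Y j (pt k) - Y j (pt l) = -(X 0 (pt k) - X 0 (pt l)) := by
    rw [Fin.forall_fin_two]; exact ⟨by linarith, by linarith⟩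
  have h2 := hX i
  have h3 := hY j
  have h4 := hmem.1 i
  have h5 := hmem.2 j
  have h6 : X 0 (pt k) - X 0 (pt l) = 0 := by linarith
  have hz : pt k - pt l = 0 := by
    apply h.no_rec
    · intro i
      rw [map_sub, hX, h6]
    · intro j
      rw [map_sub, hY, h6, neg_zero]
  exact pt_inj _ _ (sub_eq_zero.mp hz)

theorem slack_nonneg (h : Three X Y x y) (e : Fin 2 × Fin 2) (k : Fin 6) :
    0 ≤ (x e.1 - X e.1 (pt k)) + (y e.2 - Y e.2 (pt k)) := by
  have hmem := (h.bad (pt k)).mpr ⟨k, rfl⟩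
  have h1 := hmem.1 e.1
  have h2 := hmem.2 e.2
  linarith

theorem slack_tight (h : Three X Y x y) (k : Fin 6) :
    ∃ e : Fin 2 × Fin 2, (x e.1 - X e.1 (pt k)) + (y e.2 - Y e.2 (pt k)) = 0 := by
  obtain ⟨⟨i, hi⟩, ⟨j, hj⟩⟩ := h.tight k
  exact ⟨(i, j), by simp [hi, hj]⟩

theorem slack_two (h : Three X Y x y) (e : Fin 2 × Fin 2) (k l m : Fin 6) (hkl : k ≠ l)
    (hkm : k ≠ m) (hlm : l ≠ m)
    (h1 : (x e.1 - X e.1 (pt k)) + (y e.2 - Y e.2 (pt k)) = 0)
    (h2 : (x e.1 - X e.1 (pt l)) + (y e.2 - Y e.2 (pt l)) = 0)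
    (h3 : (x e.1 - X e.1 (pt m)) + (y e.2 - Y e.2 (pt m)) = 0) : False := by
  have key : ∀ r, (x e.1 - X e.1 (pt r)) + (y e.2 - Y e.2 (pt r)) = 0 →
      X e.1 (pt r) = x e.1 ∧ Y e.2 (pt r) = y e.2 := by
    intro r hr
    have hmem := (h.bad (pt r)).mpr ⟨r, rfl⟩
    have h1 := hmem.1 e.1
    have h2 := hmem.2 e.2
    constructor <;> linarith
  exact h.two _ _ k l m hkl hkm hlm (key k h1) (key l h2) (key m h3)

theorem false (h : Three X Y x y) : False := by
  obtain ⟨p, q, hpq⟩ := h.slack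
  have hrank := finrank_range_le_of_discrete (phi X Y) (δ := 1 / 3) (by norm_num) h.discrete
  have hdim : finrank ℝ (Fin 2 → ℝ) = 2 := by simp
  rw [hdim] at hrank
  set M := LinearMap.range (phi X Y) with hM
  have hfree : Module.Free ℤ M := inferInstance
  by_cases h2 : finrank ℤ M = 2
  · -- planar case
    let B : Basis (Fin 2) ℤ M := finBasisOfFinrankEq ℤ M h2
    let c : Fin 2 → (Fin 5 → ℤ) → ℤ := fun i v => B.repr ⟨phi X Y v, ⟨v, rfl⟩⟩ i
    have hphi : ∀ v, phi X Y v = (c 0 v : ℝ) • (B 0 : Fin 2 → ℝ) + (c 1 v : ℝ) • (B 1 : Fin 2 → ℝ) := by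
      intro v
      have h3 := B.sum_repr ⟨phi X Y v, ⟨v, rfl⟩⟩
      rw [Fin.sum_univ_two] at h3
      have h4 := congrArg (Subtype.val) h3
      simp only [Submodule.coe_add, Submodule.coe_smul] at h4
      rw [← h4]
      simp only [c, Int.cast_smul_eq_zsmul]
    have hsurj : ∀ m n : ℤ, ∃ v, phi X Y v = (m : ℝ) • (B 0 : Fin 2 → ℝ) + (n : ℝ) • (B 1 : Fin 2 → ℝ) := by
      intro m n
      obtain ⟨v, hv⟩ := (m • B 0 + n • B 1).2
      refine ⟨v, ?_⟩
      rw [hv]
      simp [Int.cast_smul_eq_zsmul]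
    have hval : ∀ e v (m n : ℤ), phi X Y v = (m : ℝ) • (B 0 : Fin 2 → ℝ) + (n : ℝ) • (B 1 : Fin 2 → ℝ) →
        (x e.1 - X e.1 v) + (y e.2 - Y e.2 v) = (x e.1 + y e.2) +
        (p e * (B 0 : Fin 2 → ℝ) 0 + q e * (B 0 : Fin 2 → ℝ) 1) * m +
        (p e * (B 1 : Fin 2 → ℝ) 0 + q e * (B 1 : Fin 2 → ℝ) 1) * n := by
      intro e v m n hv
      rw [hpq, hv]
      simp only [Pi.add_apply, Pi.smul_apply, smul_eq_mul]
      ring
    have hplanar : Planar (fun e => x e.1 + y e.2)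
        (fun e => p e * (B 0 : Fin 2 → ℝ) 0 + q e * (B 0 : Fin 2 → ℝ) 1)
        (fun e => p e * (B 1 : Fin 2 → ℝ) 0 + q e * (B 1 : Fin 2 → ℝ) 1)
        (fun k => c 0 (pt k)) (fun k => c 1 (pt k)) := by
      refine ⟨?_, ?_, ?_, ?_, ?_⟩
      · intro k l h3 h4
        apply h.phi_pt_inj
        rw [hphi, hphi (pt l), h3, h4]
      · intro e k
        rw [← hval e (pt k) _ _ (hphi (pt k))]
        exact h.slack_nonneg e k
      · intro k
        obtain ⟨e, he⟩ := h.slack_tight k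
        refine ⟨e, ?_⟩
        rw [← hval e (pt k) _ _ (hphi (pt k))]
        exact he
      · intro e k l m h3 h4 h5 h6 h7 h8
        rw [← hval e (pt k) _ _ (hphi (pt k))] at h6
        rw [← hval e (pt l) _ _ (hphi (pt l))] at h7
        rw [← hval e (pt m) _ _ (hphi (pt m))] at h8
        exact h.slack_two e k l m h3 h4 h5 h6 h7 h8
      · intro a b
        obtain ⟨v, hv⟩ := hsurj a b
        by_contra hcon
        push Not at hcon
        apply h.no_interior v
        intro i j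
        have h3 := hcon (i, j)
        rw [← hval (i, j) v a b hv] at h3
        linarith
    exact hplanar.false
  · -- rank at most one
    obtain ⟨w, c, hphi⟩ : ∃ (w : Fin 2 → ℝ) (c : (Fin 5 → ℤ) → ℤ), ∀ v, phi X Y v = (c v : ℝ) • w := by
      have h3 : finrank ℤ M = 0 ∨ finrank ℤ M = 1 := by omega
      rcases h3 with h3 | h3
      · let B : Basis (Fin 0) ℤ M := finBasisOfFinrankEq ℤ M h3
        refine ⟨0, fun _ => 0, fun v => ?_⟩
        have h4 := B.sum_repr ⟨phi X Y v, ⟨v, rfl⟩⟩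
        rw [Finset.univ_eq_empty, Finset.sum_empty] at h4
        have h5 : phi X Y v = 0 := (congrArg (Subtype.val) h4).symm
        rw [h5]
        simp
      · let B : Basis (Fin 1) ℤ M := finBasisOfFinrankEq ℤ M h3
        refine ⟨(B 0 : Fin 2 → ℝ), fun v => B.repr ⟨phi X Y v, ⟨v, rfl⟩⟩ 0, fun v => ?_⟩
        have h4 := B.sum_repr ⟨phi X Y v, ⟨v, rfl⟩⟩
        rw [Fin.sum_univ_one] at h4
        have h5 := congrArg (Subtype.val) h4
        simp only [Submodule.coe_smul] at h5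
        rw [← h5]
        simp only [Int.cast_smul_eq_zsmul]
    have hinj : ∀ k l, c (pt k) = c (pt l) → k = l := by
      intro k l hc
      apply h.phi_pt_inj
      rw [hphi, hphi (pt l), hc]
    have hval : ∀ (k : Fin 6) (e : Fin 2 × Fin 2), (x e.1 - X e.1 (pt k)) + (y e.2 - Y e.2 (pt k)) =
        (x e.1 + y e.2) + (p e * w 0 + q e * w 1) * (c (pt k)) := by
      intro k e
      rw [hpq, hphi]
      simp only [Pi.smul_apply, smul_eq_mul]
      ring
    refine no_collinear (fun e k => (x e.1 - X e.1 (pt k)) + (y e.2 - Y e.2 (pt k)))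
      h.slack_nonneg h.slack_tight h.slack_two (k := 0) (l := 1) (m := 2) (by decide) (by decide)
      (by decide) (fun e => x e.1 + y e.2) (fun e => p e * w 0 + q e * w 1)
      (fun k => c (pt k)) ?_ ?_ ?_ (hval 0) (hval 1) (hval 2)
    · intro h3; exact absurd (hinj _ _ h3) (by decide)
    · intro h3; exact absurd (hinj _ _ h3) (by decide)
    · intro h3; exact absurd (hinj _ _ h3) (by decide)

end Three

theorem Bad.false {A : Fin 4 → Fin 5 → ℝ} {b : Fin 4 → ℝ} (h : Bad A b) : False := by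
  obtain ⟨X, Y, x, y, h2⟩ := h.exists_two
  obtain ⟨X', Y', x', y', h3⟩ := h2.exists_three
  exact h3.false

end Pool.Agent.Work.MP_83f734_co
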